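import Pool.Agent.Helper3.REC.FLDa

set_option autoImplicit false

/-! REC, row FLD: from the eigenvalues to the determinants of subrepresentations. -/

open scoped Classical
open NumberField Polynomial

namespace Pool.Agent.Helper3.REC

open _root_.REC
open Pool.Agent.Helper13.ZL (Pl q)
open MU
open Pool.Agent.Helper61.REC
open Pool.Agent.Helper52.REC
open Pool.Agent.Helper15.REC
open Pool.Agent.Helper27.REC

section

variable {F : Type} [Field F] [NumberField F]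

theorem tmp_map {K k : Type} [Field K] [Field k] (al : K →+* k)
    (ι : 𝓞 (AlgebraicClosure F) →+* K) (v : Pl F) (e : (F →+* AlgebraicClosure F) → ℕ) (u : 𝓞 F) :
    tmp (al.comp ι) v e u = al (tmp ι v e u) := by
  unfold tmp
  rw [map_prod]
  refine Finset.prod_congr rfl fun τ _ => ?_
  have h1 : RingHom.ker ((al.comp ι).comp (RingOfIntegers.mapRingHom τ)) =
      RingHom.ker (ι.comp (RingOfIntegers.mapRingHom τ)) := by
    ext x
    rw [RingHom.mem_ker, RingHom.mem_ker, RingHom.comp_assoc, RingHom.comp_apply al,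
      map_eq_zero_iff al al.injective]
  rw [h1]
  split_ifs
  · rw [map_pow, RingHom.comp_apply]
  · rw [map_one]

/-- the determinant of a stable subspace on inertia -/
theorem key_sub {l : ℕ} {k : Type} [Field k] {θ : Zb F →+* k} {r : ℕ} {σ0 : Gal F} {z0 : k}
    (L : Lc l θ r σ0 z0) {m j : ℕ} (R : Gal F →* Matrix (Fin m) (Fin m) k)
    (B : Matrix (Fin m) (Fin j) k) (A : Gal F → Matrix (Fin j) (Fin j) k) (hBA : IsSub R B A)
    (H : Fin r → Fin m → ℕ)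
    (hcp : ∀ (σ : Gal F) (a : k), CongPow (RingHom.ker θ) 1 σ → FCh l θ r σ a →
      (R σ⁻¹).charpoly = ∏ x, (Polynomial.X - C (a ^ (∑ i : Fin r, l ^ (i : ℕ) * H i x)))) :
    ∃ X₀ : Finset (Fin m), X₀.card = j ∧ ∀ (σ : Gal F) (a : k),
      CongPow (RingHom.ker θ) 1 σ → FCh l θ r σ a →
        ((subDet hBA σ⁻¹ : kˣ) : k) = a ^ (∑ i : Fin r, l ^ (i : ℕ) * ∑ x ∈ X₀, H i x) := by
  obtain ⟨C', hC'⟩ := hBA.1
  obtain ⟨X₀, hX, hdet⟩ := sub_det (R σ0⁻¹) B (A σ0⁻¹) C' hC' (hBA.2 _) _ (hcp σ0 z0 L.i0 L.f0)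
  refine ⟨X₀, hX, fun σ a hσ ha => ?_⟩
  refine L.val (subDet hBA) _ ?_ ?_ σ a hσ ha
  · rw [subDet_coe, hdet, Finset.prod_pow_eq_pow_sum, Finset.sum_comm]
    congr 1
    refine Finset.sum_congr rfl fun i _ => ?_
    rw [Finset.mul_sum]
  · intro τ hτ hτ1
    obtain ⟨X₁, -, h1⟩ := sub_det (R τ⁻¹) B (A τ⁻¹) C' hC' (hBA.2 _) _ (hcp τ 1 hτ hτ1)
    apply Units.ext
    rw [subDet_coe, h1, Units.val_one]
    refine Finset.prod_eq_one fun x _ => ?_
    rw [one_pow]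

end

theorem st_FLD (hTSR : ST_TSR) (hTCH : ST_TCH) (hDIG : ST_DIG) (hEMF : ST_EMF)
    (hOVP : ST_OVP) : ST_FLD := by
  intro F L _ _ _ _ n m h b d ρ hFLc
  obtain ⟨c1, hc1⟩ := hFLc
  obtain ⟨c2, hc2⟩ := hTSR F
  obtain ⟨c3, hc3⟩ := hTCH F
  obtain ⟨c4, hc4⟩ := hEMF F
  refine ⟨c1 + c2 + c3 + c4 + (∑ j, h j) + 1, ?_⟩
  intro l _ hl Ω _ ϑ ι ι' R hl0 hA j B A hBA v hv
  -- everything over the algebraic closure
  set al : Ω →+* AlgebraicClosure Ω := algebraMap Ω (AlgebraicClosure Ω) with hal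
  have hinj : Function.Injective al := al.injective
  have hl0' : (l : AlgebraicClosure Ω) = 0 := by rw [← map_natCast al, hl0, map_zero]
  have hA' := at_ext hA al
  have hBA' := sub_ext al hBA
  have hW : IsSub (mapk al R) 1 (mapk al R) := IsSub.whole _
  have hιl : (al.comp ι') (l : 𝓞 (AlgebraicClosure F)) = 0 := by rw [map_natCast, hl0']
  obtain ⟨θ, f, T, hθ, hθv, hf, hq, hT, hTk, hTi⟩ :=
    hc4 l (by omega) (AlgebraicClosure Ω) (al.comp ι') hιl v hv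
  obtain ⟨r, s, hr, hs1, hs⟩ := hc1 l (by omega) (AlgebraicClosure Ω) _ _ _ hl0' hA' θ
  obtain ⟨σ0, y0, z0, hσ0, hy0, hz0, hord⟩ := hc2 l (by omega) (AlgebraicClosure Ω) θ hθ r hr
  obtain ⟨t1, t2, t3, t4, t5⟩ := hc3 l (by omega) (AlgebraicClosure Ω) θ hθ
  obtain ⟨t5a, t5b⟩ := t5 v f hθv hq
  have hover : Over l (RingHom.ker θ) := ⟨RingHom.ker_isPrime θ, hθ⟩
  have L : Lc l θ r σ0 (θ z0) :=
    { ex := t1
      uniq := t2
      mul := t3
      lev := t4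
      two := (Fact.out : l.Prime).two_le
      inv := by
        intro σ hσ
        have h1 := H72.congPow_div l (RingHom.ker θ) Fact.out hover 0 0 σ 1 le_rfl
          (by rw [pow_zero]; exact hσ) (by rw [pow_zero]; exact H72.congPow_one _)
        rw [Nat.sub_zero, pow_zero, mul_one] at h1
        exact h1
      pos := hr
      i0 := hσ0
      f0 := ⟨y0, z0, hy0, hz0, rfl⟩
      ord := hord }
  have hcp : ∀ (σ : Gal F) (a : AlgebraicClosure Ω), CongPow (RingHom.ker θ) 1 σ →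
      FCh l θ r σ a → (mapk al R σ⁻¹).charpoly =
        ∏ x, (Polynomial.X - C (a ^ (∑ i : Fin r, l ^ (i : ℕ) * h (s i x)))) := by
    rintro σ a hσ ⟨y, z, hy, hz, rfl⟩
    exact hs σ y z hσ hy hz
  obtain ⟨X₀, hX₀, hd1⟩ := key_sub L (mapk al R) _ _ hBA' (fun i x => h (s i x)) hcp
  obtain ⟨X₁, hX₁, hd2⟩ := key_sub L (mapk al R) _ _ hW (fun i x => h (s i x)) hcp
  have hX₁' : X₁ = Finset.univ := by
    rw [← Finset.card_eq_iff_eq_univ, hX₁, Fintype.card_fin]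
  obtain ⟨φ, hφ⟩ := (hOVP F).2.1 v _ hθv
  have hq0 : q v ≠ 0 := by
    rw [hq]
    exact pow_ne_zero _ (Fact.out : l.Prime).ne_zero
  -- the digits
  have hbd : ∀ (X : Finset (Fin m)) (i : Fin r), (∑ x ∈ X, h (s i x)) + 1 < l := by
    intro X i
    have h1 : ∑ x ∈ X, h (s i x) = ∑ y ∈ X.image (s i), h y := by
      rw [Finset.sum_image fun x _ y _ hxy => (hs1 i).1 hxy]
    have h2 : ∑ y ∈ X.image (s i), h y ≤ ∑ j, h j :=
      Finset.sum_le_sum_of_subset (Finset.subset_univ _)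
    omega
  have hper : ∀ (X : Finset (Fin m)) (δ : Gal F →* (AlgebraicClosure Ω)ˣ),
      (∀ (σ : Gal F) (a : AlgebraicClosure Ω), CongPow (RingHom.ker θ) 1 σ → FCh l θ r σ a →
        ((δ σ⁻¹ : (AlgebraicClosure Ω)ˣ) : AlgebraicClosure Ω) =
          a ^ (∑ i : Fin r, l ^ (i : ℕ) * ∑ x ∈ X, h (s i x))) →
      ∀ i, dgt L.pos (fun i => ∑ x ∈ X, h (s i x)) (i + f) =
        dgt L.pos (fun i => ∑ x ∈ X, h (s i x)) i := by
    intro X δ hδ
    exact L.per hDIG (fun i => ∑ x ∈ X, h (s i x)) (hbd X) f (q v) hq φ δ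
      (H72.congPow_conj _ _ φ (cp_fix _ (RingHom.ker_isPrime θ) _ hq0 φ hφ) 1 σ0 hσ0)
      (t5a r φ σ0 _ hr hφ hσ0 L.f0) hδ
  -- the index of an embedding
  set idx : (F →+* AlgebraicClosure F) → Fin r := fun τ =>
    if hτ : ∃ i, T i = τ then ⟨(hτ.choose : ℕ) % r, Nat.mod_lt _ hr⟩ else ⟨0, hr⟩ with hidx
  have hidx1 : ∀ i : Fin f, idx (T i) = ⟨(i : ℕ) % r, Nat.mod_lt _ hr⟩ := by
    intro i
    have hex : ∃ j, T j = T i := ⟨i, rfl⟩
    rw [hidx]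
    beta_reduce
    rw [dif_pos hex]
    congr 3
    exact hT hex.choose_spec
  have hfin : ∀ (X : Finset (Fin m)) (δ : Gal F →* (AlgebraicClosure Ω)ˣ),
      (∀ (σ : Gal F) (a : AlgebraicClosure Ω), CongPow (RingHom.ker θ) 1 σ → FCh l θ r σ a →
        ((δ σ⁻¹ : (AlgebraicClosure Ω)ˣ) : AlgebraicClosure Ω) =
          a ^ (∑ i : Fin r, l ^ (i : ℕ) * ∑ x ∈ X, h (s i x))) →
      ∀ (π : 𝓞 F), π ∈ v.asIdeal → π ∉ v.asIdeal ^ 2 → ∀ 𝔓 : Ideal (Zb F), OverP v 𝔓 →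
          ∀ σ : Gal F, CongPow 𝔓 1 σ → ∀ u : 𝓞 F, u ∉ v.asIdeal → Tm v 𝔓 π σ u →
          ((δ σ : (AlgebraicClosure Ω)ˣ) : AlgebraicClosure Ω) *
            tmp (al.comp ι') v (fun τ => ∑ i ∈ X.image (s (idx τ)), h i) u = 1 := by
    intro X δ hδ π hπ hπ2 𝔓 h𝔓 σ hσ u hu hTm
    obtain ⟨g, hg⟩ := (hOVP F).2.2.2.2.2.1 v 𝔓 (RingHom.ker θ) h𝔓 hθv
    have hσ' := H72.congPow_conj _ _ g hg 1 σ hσ
    have hTm' := tm_conj v 𝔓 (RingHom.ker θ) g hg π σ u hTm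
    obtain ⟨ub, hub⟩ := ex_zb u
    have hw := t5b π hπ hπ2 (g * σ * g⁻¹) u ub hσ' hu hTm' hub
    have h1 := L.levf (fun i => ∑ x ∈ X, h (s i x)) f hf δ hδ (hper X δ hδ) (g * σ * g⁻¹) (θ ub)
      hσ' hw
    have h3 : δ (g * σ * g⁻¹)⁻¹ = (δ σ)⁻¹ := by
      rw [map_inv, map_mul, map_mul, map_inv, mul_right_comm, mul_inv_cancel, one_mul]
    rw [h3] at h1
    rw [tmp_emb (al.comp ι') v l f T hT hTk u (θ ub) (fun i => hTi i u ub hub) _
      (dgt L.pos (fun i => ∑ x ∈ X, h (s i x))) ?_, ← h1, ← Units.val_mul, mul_inv_cancel,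
      Units.val_one]
    intro i
    beta_reduce
    rw [hidx1, Finset.sum_image fun x _ y _ hxy => (hs1 _).1 hxy]
    rfl
  refine ⟨fun τ => X₀.image (s (idx τ)), fun τ => Finset.univ.image (s (idx τ)), ?_, ?_⟩
  · intro τ
    refine ⟨Finset.image_subset_image (Finset.subset_univ _), ?_, ?_, ?_⟩
    · rw [Finset.card_image_of_injective _ (hs1 _).1, hX₀]
    · rw [Finset.card_image_of_injective _ (hs1 _).1, Finset.card_univ, Fintype.card_fin]
    · intro hd i hi i' hi' hii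
      rw [Finset.mem_image] at hi hi'
      obtain ⟨x, -, rfl⟩ := hi
      obtain ⟨x', -, rfl⟩ := hi'
      rw [(hs1 (idx τ)).2 hd hii]
  · intro π hπ hπ2 𝔓 h𝔓 σ hσ u hu hTm
    refine ⟨hinj ?_, hinj ?_⟩
    · have h1 := hfin X₀ _ hd1 π hπ hπ2 𝔓 h𝔓 σ hσ u hu hTm
      rw [subDet_coe, tmp_map] at h1
      rw [map_mul, map_one, RingHom.map_det]
      exact h1
    · subst hX₁'
      have h1 := hfin _ _ hd2 π hπ hπ2 𝔓 h𝔓 σ hσ u hu hTm
      rw [subDet_coe, tmp_map] at h1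
      rw [map_mul, map_one, RingHom.map_det]
      exact h1

end Pool.Agent.Helper3.REC

namespace REC

theorem FLD (hTSR : ST_TSR) (hTCH : ST_TCH) (hDIG : ST_DIG) (hEMF : ST_EMF)
    (hOVP : ST_OVP) : ST_FLD :=
  Pool.Agent.Helper3.REC.st_FLD hTSR hTCH hDIG hEMF hOVP

end REC
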