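import Pool.Agent.Helper27.REC.StmtsT3
import Pool.Agent.Helper27.REC.XWD

set_option autoImplicit false

/-! REC, row INK: second part, motives of rank two as blocks. -/

open scoped Classical
open NumberField Polynomial

namespace Pool.Agent.Helper3.REC

open _root_.REC
open MU

/-- homomorphisms to fields of characteristic `l` factor through `ℤ/l` -/
theorem theta_fac {l : ℕ} [Fact l.Prime] {Ω : Type} [Field Ω] (ϑ : ℤ_[l] →+* Ω)
    (hl0 : (l : Ω) = 0) : ∃ κ : ZMod l →+* Ω, ∀ x, κ (PadicInt.toZMod x) = ϑ x := by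
  have : CharP Ω l := (CharP.charP_iff_prime_eq_zero Fact.out).2 hl0
  refine ⟨ZMod.castHom (dvd_refl l) Ω, fun x => ?_⟩
  obtain ⟨n, hn⟩ : ∃ n : ℕ, (n : ZMod l) = PadicInt.toZMod x :=
    ⟨(PadicInt.toZMod x).val, ZMod.natCast_zmod_val _⟩
  have h1 : x - (n : ℤ_[l]) ∈ RingHom.ker (PadicInt.toZMod (p := l)) := by
    rw [RingHom.mem_ker, map_sub, map_natCast, hn, sub_self]
  rw [PadicInt.ker_toZMod, PadicInt.maximalIdeal_eq_span_p, Ideal.mem_span_singleton] at h1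
  obtain ⟨z, hz⟩ := h1
  have h2 : x = (n : ℤ_[l]) + l * z := by rw [← hz, add_sub_cancel]
  rw [← hn, map_natCast, h2, map_add, map_mul, map_natCast, map_natCast, hl0, zero_mul, add_zero]

section

variable {n : ℕ} {F : Type} [Field F] [NumberField F]

theorem at_idb {G : Type} [Group G] {l : ℕ} [Fact l.Prime] {Ω : Type} [Field Ω]
    {r : G →* Matrix.GeneralLinearGroup (Fin n) ℤ_[l]} {ϑ : ℤ_[l] →+* Ω} {ι : 𝓞 ℚ →+* Ω}
    {R : G →* Matrix (Fin n) (Fin n) Ω} (h : (idb n).At r ϑ ι R) (g : G) :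
    R g = (r g : Matrix (Fin n) (Fin n) ℤ_[l]).map ϑ := by
  have h1 := h.2 g
  have h2 : (idb n).P.map ι = 1 := Matrix.map_one _ (map_zero _) (map_one _)
  rw [h2, Matrix.one_mul, Matrix.mul_one] at h1
  exact h1.symm

theorem idb_stb (ρ : Fml F n) : (idb n).Stb ρ := by
  intro l _ Ω _ ϑ ι hN
  refine ⟨(ϑ.mapMatrix (m := Fin n)).toMonoidHom.comp ((Units.coeHom _).comp (ρ l)), hN,
    fun g => ?_⟩
  have h2 : (idb n).P.map ι = 1 := Matrix.map_one _ (map_zero _) (map_one _)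
  rw [h2, Matrix.one_mul, Matrix.mul_one]
  rfl

theorem idb_cmp {S : Finset ℕ} {w : ℕ} {h : Fin n → ℕ} (M : Mot F S n w h) :
    (idb n).Cmp S (fun l _ => M.ρ l) := by
  intro p hp hpS 𝔓 h𝔓 k σ hk hσ
  obtain ⟨P, -, hP⟩ := M.pure p hp hpS 𝔓 h𝔓 k σ hk hσ
  refine ⟨P.map (Int.castRingHom (𝓞 ℚ)), fun l _ hl Ω _ ϑ ι R hR => ?_⟩
  rw [at_idb hR, Matrix.charpoly_map, hP l hl, Polynomial.map_map, Polynomial.map_map]
  congr 1
  exact RingHom.ext_int _ _

/-- the residual representation over `Ω` -/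
theorem idb_res {l : ℕ} [Fact l.Prime] {Ω : Type} [Field Ω] {ϑ : ℤ_[l] →+* Ω} {κ : ZMod l →+* Ω}
    (hκ : ∀ x, κ (PadicInt.toZMod x) = ϑ x) {ι : 𝓞 ℚ →+* Ω} {G : Type} [Group G]
    {r : G →* Matrix.GeneralLinearGroup (Fin n) ℤ_[l]} {R : G →* Matrix (Fin n) (Fin n) Ω}
    (h : (idb n).At r ϑ ι R) (g : G) : R g = (res r g).map κ := by
  rw [at_idb h]
  ext i j
  rw [Matrix.map_apply, Matrix.map_apply, ← hκ]
  rfl

theorem idb_flc {S : Finset ℕ} {w : ℕ} {h : Fin n → ℕ} (M : Mot F S n w h) (hM : FLC M) :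
    (idb n).FLc h False (fun l _ => M.ρ l) := by
  obtain ⟨c, hc⟩ := hM
  refine ⟨c, fun l _ hl Ω _ ϑ ι R hl0 hR θ => ?_⟩
  obtain ⟨κ, hκ⟩ := theta_fac ϑ hl0
  obtain ⟨r, s, hr, hs⟩ := hc l hl Ω κ θ
  refine ⟨r, fun i x => s i x, hr, fun i => ⟨(s i).injective, fun hf => hf.elim⟩, ?_⟩
  intro σ y z hσ hy hz
  rw [idb_res hκ hR, Matrix.charpoly_map]
  exact hs σ y z hσ hy hz

/-- matrices of rank two which contain the elementary matrices are irreducible -/
theorem irr_two {G K : Type} [Group G] [Field K] (r : G →* Matrix (Fin 2) (Fin 2) K) (g g' : G)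
    (hg : r g = !![1, 1; 0, 1]) (hg' : r g' = !![1, 0; 1, 1]) : IsIrr r := by
  intro m B A hBA
  obtain ⟨C', hC'⟩ := hBA.1
  have hm : m ≤ 2 := by
    have h1 := natDegree_le_of_dvd (sub_charpoly_dvd hC' (hBA.2 1)) (r 1).charpoly_monic.ne_zero
    rwa [Matrix.charpoly_natDegree_eq_dim, Matrix.charpoly_natDegree_eq_dim, Fintype.card_fin,
      Fintype.card_fin] at h1
  have h3 : m = 0 ∨ m = 1 ∨ m = 2 := by omega
  rcases h3 with h3 | h3 | h3
  · exact Or.inl h3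
  · exfalso
    subst h3
    have h1 := hBA.2 g
    have h2 := hBA.2 g'
    rw [hg] at h1
    rw [hg'] at h2
    have e1 := congrFun (congrFun h1 0) 0
    have e2 := congrFun (congrFun h1 1) 0
    have e3 := congrFun (congrFun h2 0) 0
    have e4 := congrFun (congrFun h2 1) 0
    simp [Matrix.mul_apply, Fin.sum_univ_two] at e1 e2 e3 e4
    have h5 : B 1 0 = 0 := by
      by_contra hb
      have h6 : A g 0 0 = 1 := by
        have : B 1 0 * A g 0 0 = B 1 0 * 1 := by rw [mul_one]; exact e2.symm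
        exact mul_left_cancel₀ hb this
      rw [h6, mul_one] at e1
      exact hb (by linear_combination e1)
    have h6 : B 0 0 = 0 := by
      by_contra hb
      have h7 : A g' 0 0 = 1 := by
        have : B 0 0 * A g' 0 0 = B 0 0 * 1 := by rw [mul_one]; exact e3.symm
        exact mul_left_cancel₀ hb this
      rw [h7, mul_one] at e4
      exact hb (by linear_combination e4)
    have h7 := congrFun (congrFun hC' 0) 0
    simp [Matrix.mul_apply, Fin.sum_univ_two, h5, h6] at h7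
  · exact Or.inr h3

theorem idb_sir {S : Finset ℕ} {w : ℕ} {h : Fin 2 → ℕ} (M : Mot F S 2 w h) (hM : SL2M M) :
    (idb 2).Sir (fun l _ => M.ρ l) := by
  intro H hH
  obtain ⟨c, hc⟩ := hM H hH
  refine ⟨c, fun l _ hl Ω _ ϑ ι R hl0 hR => ?_⟩
  obtain ⟨κ, hκ⟩ := theta_fac ϑ hl0
  obtain ⟨g, hgH, hg⟩ := hc l hl !![1, 1; 0, 1] (by simp [Matrix.det_fin_two])
  obtain ⟨g', hgH', hg'⟩ := hc l hl !![1, 0; 1, 1] (by simp [Matrix.det_fin_two])
  refine irr_two (R.comp H.subtype) ⟨g, hgH⟩ ⟨g', hgH'⟩ ?_ ?_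
  · show R g = _
    rw [idb_res hκ hR, hg]
    ext i j
    fin_cases i <;> fin_cases j <;> simp
  · show R g' = _
    rw [idb_res hκ hR, hg']
    ext i j
    fin_cases i <;> fin_cases j <;> simp

end

end Pool.Agent.Helper3.REC
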