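import Pool.Agent.Helper3.REC.INKa
import Pool.Agent.Helper3.REC.INKb

set_option autoImplicit false

/-! REC, row INK: the class `TCt` is contained in the class `TGn`. -/

open scoped Classical
open NumberField Polynomial

namespace Pool.Agent.Helper3.REC

open _root_.REC
open MU

/-- the matrices over the integers of `ℚ` -/
theorem map_oq {ι κ Ω : Type} [CommRing Ω] (f : 𝓞 ℚ →+* Ω) (X : Matrix ι κ ℤ) :
    (X.map (Int.castRingHom (𝓞 ℚ))).map f = X.map (Int.castRingHom Ω) := map_zmod f X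

theorem st_INK (hBIG : ST_BIG) (hMSS : ST_MSS) (hSYT : ST_SYT) (hGNS : ST_GNS) : ST_INK := by
  intro F _ _ S hS n w h M hM
  obtain ⟨K, _, _, _, j, r, t, S₂, w₂, h₂, N, k, c, m, S₁, w₁, h₁, B, e, P, Q, hbc, hS₂, hS₁, hN,
    hunr, hpab, hPQ, hPQ0, hQP, hP⟩ := hM
  -- one set of primes
  set S' : Finset ℕ := (Finset.univ.biUnion S₂) ∪ (Finset.univ.biUnion S₁) with hS'
  have hS₂' : ∀ i, S₂ i ⊆ S' := fun i p hp =>
    Finset.mem_union_left _ (Finset.mem_biUnion.2 ⟨i, Finset.mem_univ i, hp⟩)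
  have hS₁' : ∀ a, S₁ a ⊆ S' := fun a p hp =>
    Finset.mem_union_right _ (Finset.mem_biUnion.2 ⟨a, Finset.mem_univ a, hp⟩)
  have hSp : ∀ p ∈ S', p.Prime := by
    intro p hp
    rcases Finset.mem_union.1 hp with h1 | h1
    · obtain ⟨i, -, hi⟩ := Finset.mem_biUnion.1 h1
      exact hS₂ i p hi
    · obtain ⟨a, -, ha⟩ := Finset.mem_biUnion.1 h1
      exact hS₁ a p ha
  choose N' hN' using fun i => hMSS K (S₂ i) S' (hS₂' i) hSp 2 (w₂ i) (h₂ i) (N i)
  choose B' hB' using fun a => hMSS K (S₁ a) S' (hS₁' a) hSp (m a) (w₁ a) (h₁ a) (B a)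
  -- large images
  have hSL : ∀ i, SL2M (N i) := by
    intro i
    rcases hBIG K (S₂ i) (hS₂ i) (w₂ i) (h₂ i) (N i) (hN i).1 (hN i).2.1 (hN i).2.2.2 with h1 | h1
    · exact absurd h1 (hN i).2.2.1
    · exact h1
  have hSL' : ∀ i, SL2M (N' i) := by
    intro i
    have h1 := hSL i
    unfold SL2M at h1 ⊢
    rw [hN' i]
    exact h1
  have hunr' : ∀ i i', i ≠ i' → Unr2 (N' i) (N' i') := by
    intro i i' hii
    have h1 := hunr i i' hii
    unfold Unr2 at h1 ⊢
    rw [hN' i, hN' i']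
    exact h1
  have hFL' : ∀ i, FLC (N' i) := by
    intro i
    have h1 := (hN i).2.1
    unfold FLC at h1 ⊢
    rw [hN' i]
    exact h1
  have hpab' : ∀ a, Pab (B' a) := by
    intro a
    have h1 := hpab a
    unfold Pab at h1 ⊢
    rw [hB' a]
    exact h1
  -- denominators
  choose dP hdP hdP1 using fun a => ex_den (P a)
  choose dQ hdQ hdQ1 using fun a => ex_den (Q a)
  set D : ℕ := (∏ a, dP a) * ∏ a, dQ a with hD
  have hD0 : 0 < D := Nat.mul_pos (Finset.prod_pos fun a _ => hdP a)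
    (Finset.prod_pos fun a _ => hdQ a)
  choose PZ hPZ using fun a => hdP1 a D
    ((Finset.dvd_prod_of_mem dP (Finset.mem_univ a)).trans (Nat.dvd_mul_right _ _))
  choose QZ hQZ using fun a => hdQ1 a D
    ((Finset.dvd_prod_of_mem dQ (Finset.mem_univ a)).trans (Nat.dvd_mul_left _ _))
  choose Na U V hNa hVU hUV using fun a => hSYT t (c a)
  choose Ma hMa using fun a => Finset.dvd_prod_of_mem Na (Finset.mem_univ a)
  set NN : ℕ := ∏ a, Na a with hNN
  have hNN0 : 0 < NN := Finset.prod_pos fun a _ => hNa a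
  have hQPZ : ∑ a, QZ a * PZ a = ((D ^ 2 : ℕ) : ℤ) • (1 : Matrix (Fin n) (Fin n) ℤ) := by
    have h1 : Function.Injective fun X : Matrix (Fin n) (Fin n) ℤ =>
        (Int.castRingHom ℚ).mapMatrix X := Matrix.map_injective (Int.cast_injective)
    apply h1
    beta_reduce
    rw [map_sum]
    have h2 : ∀ a, (Int.castRingHom ℚ).mapMatrix (QZ a * PZ a) =
        ((D : ℚ) ^ 2) • (Q a * P a) := by
      intro a
      rw [RingHom.mapMatrix_apply, Matrix.map_mul, hQZ, hPZ, Matrix.smul_mul, Matrix.mul_smul,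
        smul_smul, sq]
    rw [Finset.sum_congr rfl fun a _ => h2 a, ← Finset.smul_sum, hQP, RingHom.mapMatrix_apply,
      smul_map, Matrix.map_one _ (map_zero _) (map_one _), map_natCast]
    push_cast
    rfl
  have hsum : ∑ a, inQ (V a) (QZ a) * inP (Ma a) (U a) (PZ a) =
      ((NN * D ^ 2 : ℕ) : ℤ) • (1 : Matrix (Fin n) (Fin n) ℤ) := by
    have h1 : ∀ a, inQ (V a) (QZ a) * inP (Ma a) (U a) (PZ a) =
        ((NN : ℕ) : ℤ) • (QZ a * PZ a) := by
      intro a
      rw [in_mul (Ma a) (Na a) (U a) (V a) (PZ a) (QZ a) (hVU a), ← hMa a]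
    rw [Finset.sum_congr rfl fun a _ => h1 a, ← Finset.smul_sum, hQPZ, smul_smul]
    push_cast
    rfl
  refine ⟨K, inferInstance, inferInstance, inferInstance, j, r, ℚ, inferInstance, inferInstance,
    S', t, fun _ => 2, w₂, h₂, N', fun _ => 2, fun _ => idb 2, fun _ => 0, k, c, fun _ => 0,
    m, w₁, h₁, B', e, hbc, hSp, ?_, ?_, ?_, ?_, hpab', ?_⟩
  · intro i
    exact ⟨two_pos, Or.inl rfl⟩
  · intro i
    exact ⟨idb_stb _, idb_cmp (N' i), Or.inl ⟨idb_flc (N' i) (hFL' i),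
      Or.inl (idb_sir (N' i) (hSL' i))⟩⟩
  · intro i l _ Ω _ ϑ ι R hR g
    refine ⟨?_, fun h0 => absurd rfl h0⟩
    have h1 : jm Ω (fun _ => 0 : MM (fun _ : Fin t => 2) ℤ) i = 0 :=
      Matrix.map_zero _ (map_zero _)
    rw [h1, Matrix.mul_zero, Matrix.zero_mul, smul_zero]
  · exact hGNS K S' hSp t w₂ h₂ N' hSL' hunr'
  · refine ⟨NN * D ^ 2, fun a => (inP (Ma a) (U a) (PZ a)).map (Int.castRingHom (𝓞 ℚ)),
      fun a => (inQ (V a) (QZ a)).map (Int.castRingHom (𝓞 ℚ)),
      Nat.mul_pos hNN0 (pow_pos hD0 2), ?_, ?_⟩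
    · have h1 := congrArg (Int.castRingHom (𝓞 ℚ)).mapMatrix hsum
      rw [map_sum, RingHom.mapMatrix_apply, smul_map, Matrix.map_one _ (map_zero _) (map_one _),
        map_natCast] at h1
      rw [← h1]
      refine Finset.sum_congr rfl fun a _ => ?_
      rw [RingHom.mapMatrix_apply, Matrix.map_mul]
    · intro l _ Ω _ ϑ ι R _ hR a g
      have hRi : ∀ (i : Fin t) (g : Gal K), R i g =
          ((N i).ρ l g : Matrix (Fin 2) (Fin 2) ℤ_[l]).map ϑ := by
        intro i g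
        rw [at_idb (hR i) g]
        show ((N' i).ρ l g : Matrix (Fin 2) (Fin 2) ℤ_[l]).map ϑ = _
        rw [hN' i]
      -- the relations over `ℚ_l`
      have hQrel := rel_Q (fun a => (P a).map (algebraMap ℚ ℚ_[l]))
        (fun a => (Q a).map (algebraMap ℚ ℚ_[l]))
        (fun a => by rw [← Matrix.map_mul, hPQ a, Matrix.map_one _ (map_zero _) (map_one _)])
        (fun a b hab => by rw [← Matrix.map_mul, hPQ0 a b hab, Matrix.map_zero _ (map_zero _)])
        (by
          have h1 := congrArg (algebraMap ℚ ℚ_[l]).mapMatrix hQP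
          rw [map_sum, map_one] at h1
          rw [← h1]
          refine Finset.sum_congr rfl fun a _ => ?_
          rw [RingHom.mapMatrix_apply, Matrix.map_mul]) (rat (M.ρ l) (r g))
        (fun a => tpc (c a) (fun i => rat ((N i).ρ l) g)
          ((twc ((B a).ρ l) (e a) g).map (algebraMap ℤ_[l] ℚ_[l]))) (fun a => hP a l g) a
      -- the relations over `ℤ_l`
      have hT : (tpc (c a) (fun i => ((N i).ρ l g : Matrix (Fin 2) (Fin 2) ℤ_[l]))
          (twc ((B a).ρ l) (e a) g)).map (algebraMap ℤ_[l] ℚ_[l]) =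
          tpc (c a) (fun i => rat ((N i).ρ l) g)
            ((twc ((B a).ρ l) (e a) g).map (algebraMap ℤ_[l] ℚ_[l])) :=
        ((st_SYF ℤ_[l]).2.2.2.2.2 ℚ_[l] (algebraMap ℤ_[l] ℚ_[l]) t (m a) (c a) _ _).2
      have hP1 := zl_P (PZ a) D (P a) (hPZ a) (M.ρ l (r g) : Matrix (Fin n) (Fin n) ℤ_[l])
        (tpc (c a) (fun i => ((N i).ρ l g : Matrix (Fin 2) (Fin 2) ℤ_[l]))
          (twc ((B a).ρ l) (e a) g)) (by
            rw [hT]
            exact hP a l g)
      have hQ1 := zl_Q (QZ a) D (Q a) (hQZ a) (M.ρ l (r g) : Matrix (Fin n) (Fin n) ℤ_[l])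
        (tpc (c a) (fun i => ((N i).ρ l g : Matrix (Fin 2) (Fin 2) ℤ_[l]))
          (twc ((B a).ρ l) (e a) g)) (by
            rw [hT]
            exact hQrel)
      -- the relations over `Ω`
      have hTΩ : (tpc (c a) (fun i => ((N i).ρ l g : Matrix (Fin 2) (Fin 2) ℤ_[l]))
          (twc ((B a).ρ l) (e a) g)).map ϑ =
          Matrix.kroneckerMap (· * ·) (tenM (c a) (fun i => R i g))
            ((twc ((B a).ρ l) (e a) g).map ϑ) := by
        rw [((st_SYF ℤ_[l]).2.2.2.2.2 Ω ϑ t (m a) (c a) _ _).2]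
        unfold tpc
        congr 2
        funext i
        exact (hRi i g).symm
      have hP2 := congrArg (fun X => X.map ϑ) hP1
      have hQ2 := congrArg (fun X => X.map ϑ) hQ1
      simp only [Matrix.map_mul, hTΩ, map_zmod] at hP2 hQ2
      have hBa : (B' a).ρ = (B a).ρ := hB' a
      obtain ⟨hU1, hV1⟩ := hUV a Ω (fun i => R i g) (fun i => R i g⁻¹)
      refine ⟨?_, ?_⟩
      · rw [map_oq]
        beta_reduce
        rw [hBa]
        exact inP_rel (Ma a) (U a) (PZ a) _ _ _ _ hU1 hP2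
      · rw [map_oq]
        beta_reduce
        rw [hBa]
        exact inQ_rel (V a) (QZ a) _ _ _ _ hV1 hQ2

end Pool.Agent.Helper3.REC

namespace REC

theorem INK (hBIG : ST_BIG) (hMSS : ST_MSS) (hSYT : ST_SYT) (hGNS : ST_GNS) : ST_INK :=
  Pool.Agent.Helper3.REC.st_INK hBIG hMSS hSYT hGNS

end REC
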