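import Pool.Agent.Helper27.REC.StmtsT3

set_option autoImplicit false

/-! REC, row MSS: enlarging the set of primes. -/

open scoped Classical
open NumberField Polynomial

namespace Pool.Agent.Helper3.REC

open _root_.REC
open MU

theorem st_MSS : ST_MSS := by
  intro F _ _ S S' hSS hS' n w h M
  refine ⟨{ ρ := M.ρ
            continuous := M.continuous
            good := ?_
            semistable := ?_
            pure := ?_
            hodgeTate := M.hodgeTate
            fontaineLaffaille := M.fontaineLaffaille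
            conj := M.conj }, rfl⟩
  · intro l _ p hp hpS hpl 𝔓 h𝔓 σ hσ
    exact M.good l p hp (fun h1 => hpS (hSS h1)) hpl 𝔓 h𝔓 σ hσ
  · intro l _ p hpS hpl 𝔓 h𝔓 σ hσ
    by_cases h1 : p ∈ S
    · exact M.semistable l p h1 hpl 𝔓 h𝔓 σ hσ
    · have h3 := M.good l p (hS' p hpS) h1 hpl 𝔓 h𝔓 σ hσ
      have h4 : rat (M.ρ l) σ = 1 := by
        change ((M.ρ l σ : Matrix.GeneralLinearGroup (Fin n) ℤ_[l]) :
          Matrix (Fin n) (Fin n) ℤ_[l]).map (algebraMap ℤ_[l] ℚ_[l]) = 1
        rw [h3, Units.val_one, Matrix.map_one _ (map_zero _) (map_one _)]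
      rw [h4, sub_self]
      rcases Nat.eq_zero_or_pos n with hn | hn
      · subst hn
        exact Subsingleton.elim _ _
      · exact zero_pow hn.ne'
  · intro p hp hpS
    exact M.pure p hp fun h1 => hpS (hSS h1)

end Pool.Agent.Helper3.REC

namespace REC

theorem MSS : ST_MSS := Pool.Agent.Helper3.REC.st_MSS

end REC
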