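import Pool.Agent.Helper27.REC.StmtsT2
import Pool.Agent.Helper57.REC.XUN
import Pool.Agent.Helper20.REC.PB0
import Pool.Agent.Helper18.REC.LAR0

set_option autoImplicit false

/-! REC, row SP1: separation of characters. -/

open scoped Classical
open NumberField Polynomial

namespace Pool.Agent.Helper3.REC

open _root_.REC
open Pool.Agent.Helper13.ZL (Pl q)
open MU

/-- roots of unity of order prime to the residue characteristic with trivial reduction -/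
theorem root_one {Ω : Type} [Field Ω] (A : ValuationSubring Ω) (z : A) (N : ℕ) (h : z ^ N = 1)
    (hz : IsLocalRing.residue A z = 1) (hN : (N : IsLocalRing.ResidueField A) ≠ 0) : z = 1 := by
  have h1 : (∑ i ∈ Finset.range N, z ^ i) * (z - 1) = 0 := by
    rw [geom_sum_mul, h, sub_self]
  rcases mul_eq_zero.1 h1 with h2 | h2
  · exfalso
    apply hN
    have h3 := congrArg (IsLocalRing.residue A) h2
    rw [map_sum, map_zero] at h3
    simp only [map_pow, hz, one_pow, Finset.sum_const, Finset.card_range, nsmul_eq_mul,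
      mul_one] at h3
    exact h3
  · exact sub_eq_zero.1 h2

theorem natCast_ne {k : Type} [Field k] (l N : ℕ) (hl : l.Prime) (hl0 : (l : k) = 0) (hN : 0 < N)
    (hNl : N < l) : (N : k) ≠ 0 := by
  intro h
  have h1 : IsCoprime (N : ℤ) (l : ℤ) :=
    Nat.isCoprime_iff_coprime.2 ((hl.coprime_iff_not_dvd.2 (Nat.not_dvd_of_pos_of_lt hN hNl)).symm)
  obtain ⟨a, b, hab⟩ := h1
  have h2 := congrArg (fun x : ℤ => (x : k)) hab
  simp only [Int.cast_add, Int.cast_mul, Int.cast_natCast, Int.cast_one, h, hl0, mul_zero,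
    add_zero] at h2
  exact zero_ne_one h2

/-- the character of `Sep` -/
noncomputable def psi {F Ω : Type} [Field F] [NumberField F] [Field Ω] {A : ValuationSubring Ω}
    {l : ℕ} [Fact l.Prime] {t : ℕ} {m : Fin t → ℕ} (ϑ : ℤ_[l] →+* A)
    (R : ∀ i, Gal F →* Matrix (Fin (m i)) (Fin (m i)) A) (χ : Gal F →* A) (M e : ℕ)
    (κ : Fin t → ℕ) : Gal F →* A where
  toFun g := χ g ^ M * cyv ϑ g ^ e * ∏ i, (R i g).det ^ κ i
  map_one' := by
    have h1 : cyv ϑ (1 : Gal F) = 1 := by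
      unfold cyv
      rw [inv_one, map_one, Units.val_one, map_one]
    rw [map_one, one_pow, h1, one_pow, one_mul, one_mul]
    refine Finset.prod_eq_one fun i _ => ?_
    rw [map_one, Matrix.det_one, one_pow]
  map_mul' g g' := by
    have h1 : cyv ϑ (g * g') = cyv ϑ g * cyv ϑ g' := by
      unfold cyv
      rw [mul_inv_rev, map_mul, Units.val_mul, map_mul, mul_comm]
    have h2 : ∏ i, (R i (g * g')).det ^ κ i =
        (∏ i, (R i g).det ^ κ i) * ∏ i, (R i g').det ^ κ i := by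
      rw [← Finset.prod_mul_distrib]
      refine Finset.prod_congr rfl fun i _ => ?_
      rw [map_mul, Matrix.det_mul, mul_pow]
    rw [map_mul, mul_pow, h1, mul_pow, h2]
    ring

theorem isFam_rs {F K : Type} [Field F] [NumberField F] [Field K] [NumberField K] [Algebra F K]
    (hBCT : ST_BCT) (j : AlgebraicClosure F ≃+* AlgebraicClosure K) (r : Gal K →* Gal F)
    (hr : IsBC F K j r) (S : Finset ℕ) (n : ℕ) (B : Fml F n) (hB : IsFam S B) :
    IsFam S (B.rs r) := by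
  refine ⟨fun l _ => (hB.1 l).comp (xun_cont hr), ?_⟩
  intro p hp hpS 𝔔 hQ k σ hk hσ
  obtain ⟨𝔓, h1, h2, -⟩ := hBCT F K j r hr 𝔔
  obtain ⟨P, hP⟩ := hB.2 p hp hpS 𝔓 (xun_over p 𝔔 hQ 𝔓 h1) k (r σ) hk ((h2 _ σ).1 hσ)
  refine ⟨P, fun l _ hl => ?_⟩
  have h3 : B.rs r l σ⁻¹ = B l (r σ)⁻¹ := by
    show B l (r σ⁻¹) = B l (r σ)⁻¹
    rw [map_inv r]
  rw [h3]
  exact hP l hl

theorem dga_rs {F K : Type} [Field F] [NumberField F] [Field K] [NumberField K]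
    (r : Gal K →* Gal F) (n : ℕ) (B : Fml F n) (hB : Dga B) : Dga (B.rs r) := by
  obtain ⟨c, hc⟩ := hB
  refine ⟨c, fun l _ hl Ω _ _ _ A ϑ h0 => ?_⟩
  obtain ⟨C, C', χ, h1, h2, h3⟩ := hc l hl Ω A ϑ h0
  exact ⟨C, C', fun x => (χ x).comp r, h1, h2, fun g => h3 (r g)⟩

/-- the open subgroup on which an integral representation is `1` modulo `l ^ 2` -/
theorem open_cg {F : Type} [Field F] [NumberField F] {l : ℕ} [Fact l.Prime] {n : ℕ}
    (r : Gal F →* Matrix.GeneralLinearGroup (Fin n) ℤ_[l]) (hr : Continuous r) :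
    ∃ U : Subgroup (Gal F), IsOpen (U : Set (Gal F)) ∧ ∀ g ∈ U,
      ∃ C : Matrix (Fin n) (Fin n) ℤ_[l],
        (r g : Matrix (Fin n) (Fin n) ℤ_[l]) = 1 + (l : ℤ_[l]) ^ 2 • C := by
  obtain ⟨U, hU, hm⟩ := gl_open r hr 2
  exact ⟨U, hU, fun g hg => (PB0.cg_iff 2 _).1 ((hm g).1 hg)⟩

theorem open_cyc (F : Type) [Field F] [NumberField F] (l : ℕ) [Fact l.Prime] :
    ∃ U : Subgroup (Gal F), IsOpen (U : Set (Gal F)) ∧ ∀ g ∈ U, ∃ a : ℤ_[l],
      ((cyc l F g : ℤ_[l]ˣ) : ℤ_[l]) = 1 + (l : ℤ_[l]) ^ 2 * a := by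
  refine ⟨(cyk F l 2).ker, Pool.Agent.Helper18.REC.cyk_open F l 2, fun g hg => ?_⟩
  rw [MonoidHom.mem_ker] at hg
  have h1 : PadicInt.toZModPow 2 ((cyc l F g : ℤ_[l]ˣ) : ℤ_[l]) = 1 := by
    have h2 := congrArg (fun u : (ZMod (l ^ 2))ˣ => (u : ZMod (l ^ 2))) hg
    exact h2
  have h2 : ((cyc l F g : ℤ_[l]ˣ) : ℤ_[l]) - 1 ∈ RingHom.ker (PadicInt.toZModPow (p := l) 2) := by
    rw [RingHom.mem_ker, map_sub, h1, map_one, sub_self]
  rw [PadicInt.ker_toZModPow, Ideal.mem_span_singleton] at h2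
  obtain ⟨a, ha⟩ := h2
  exact ⟨a, by rw [← ha, add_sub_cancel]⟩

theorem st_SP1 (hSP0 : ST_SP0) (hFXF : ST_FXF) (hIXB : ST_IXB) (hBCF : ST_BCF)
    (hBCT : ST_BCT) : ST_SP1 := by
  intro F L _ _ _ _ S t n₂ m b ρ n n' B B' hb hB hB' hD hD' M D hM
  obtain ⟨l₀, hl₀, hp₀⟩ := Nat.exists_infinite_primes ((∑ i, (b i).N) + 1)
  haveI : Fact l₀.Prime := ⟨hp₀⟩
  -- the open subgroup
  choose U hU hU1 using fun i => open_cg (ρ i l₀) ((hb i).1 l₀)
  obtain ⟨U₁, hU₁, hU₁1⟩ := open_cg (B l₀) (hB.1 l₀)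
  obtain ⟨U₂, hU₂, hU₂1⟩ := open_cg (B' l₀) (hB'.1 l₀)
  obtain ⟨U₃, hU₃, hU₃1⟩ := open_cyc F l₀
  obtain ⟨K, _, _, _, j, r, hr, hrU, hrn⟩ := hFXF F ((⨅ i, U i) ⊓ (U₁ ⊓ (U₂ ⊓ U₃))) (by
    rw [Subgroup.coe_inf, Subgroup.coe_inf, Subgroup.coe_inf, Subgroup.coe_iInf]
    exact (isOpen_iInter_of_finite fun i => hU i).inter (hU₁.inter (hU₂.inter hU₃)))
  have hmem : ∀ g : Gal K, r g ∈ (⨅ i, U i) ⊓ (U₁ ⊓ (U₂ ⊓ U₃)) := fun g => hrU ⟨g, rfl⟩
  have hmU : ∀ (i : Fin t) (g : Gal K), r g ∈ U i := fun i g =>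
    (Subgroup.mem_iInf.1 (Subgroup.mem_inf.1 (hmem g)).1) i
  have hm1 : ∀ g : Gal K, r g ∈ U₁ := fun g =>
    (Subgroup.mem_inf.1 (Subgroup.mem_inf.1 (hmem g)).2).1
  have hm2 : ∀ g : Gal K, r g ∈ U₂ := fun g =>
    (Subgroup.mem_inf.1 (Subgroup.mem_inf.1 (Subgroup.mem_inf.1 (hmem g)).2).2).1
  have hm3 : ∀ g : Gal K, r g ∈ U₃ := fun g =>
    (Subgroup.mem_inf.1 (Subgroup.mem_inf.1 (Subgroup.mem_inf.1 (hmem g)).2).2).2
  obtain ⟨-, hidx⟩ := hIXB F K j r hr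
  obtain ⟨hcyc, hbcf⟩ := hBCF F K j r hr
  have hSep : Sep b (fun i => (ρ i).rs r) (B.rs r) (B'.rs r) M D := by
    refine hSP0 K L S t n₂ m b (fun i => (ρ i).rs r) n n' (B.rs r) (B'.rs r) l₀ ?_ ?_
      (isFam_rs hBCT j r hr S n B hB) (isFam_rs hBCT j r hr S n' B' hB') (dga_rs r n B hD)
      (dga_rs r n' B' hD') ?_ ?_ M D hM
    · intro i
      obtain ⟨h1, h2, -, -, -, -⟩ := hbcf L (n₂ i) (m i) (b i) (ρ i) (hb i).2.1
      refine ⟨fun l _ => ((hb i).1 l).comp (xun_cont hr), h1, h2 S (hb i).2.2, ?_,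
        fun g => hU1 i (r g) (hmU i g)⟩
      intro hdvd
      have h3 := Nat.le_of_dvd (b i).pos hdvd
      have h4 : (b i).N ≤ ∑ i, (b i).N :=
        Finset.single_le_sum (f := fun i => (b i).N) (fun _ _ => Nat.zero_le _)
          (Finset.mem_univ i)
      omega
    · intro g
      rw [hcyc]
      exact hU₃1 (r g) (hm3 g)
    · intro g
      exact hU₁1 (r g) (hm1 g)
    · intro g
      exact hU₂1 (r g) (hm2 g)
  obtain ⟨c, hc⟩ := hSep
  refine ⟨max c r.range.index, ?_⟩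
  intro l _ hl Ω _ _ _ A ϑ ι R hl0 hA χ χ' hχ hχ' e e' κ κ' he he' hκ hκ' hres g
  have hcl : c < l := lt_of_le_of_lt (le_max_left _ _) hl
  have hil : r.range.index < l := lt_of_le_of_lt (le_max_right _ _) hl
  have hcyv : ∀ g : Gal K, cyv ϑ g = cyv ϑ (r g) := by
    intro g
    unfold cyv
    rw [hcyc, map_inv r]
  -- equality on the image of `r`
  have hK : ∀ g : Gal K, psi ϑ R χ M e κ (r g) = psi ϑ R χ' M e' κ' (r g) := by
    intro g
    obtain ⟨v, hv0, hv⟩ := hχ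
    obtain ⟨v', hv0', hv'⟩ := hχ'
    have h1 := hc l hcl Ω A ϑ ι (fun i => (R i).comp r) hl0 (fun i => ⟨(hA i).1, fun g =>
      (hA i).2 (r g)⟩) (χ.comp r) (χ'.comp r) ⟨v, hv0, fun g => hv (r g)⟩
      ⟨v', hv0', fun g => hv' (r g)⟩ e e' κ κ' he he' hκ hκ' (fun g => by
        rw [hcyv]
        exact hres (r g)) g
    rw [hcyv] at h1
    exact h1
  have hN := natCast_ne (k := IsLocalRing.ResidueField A) l r.range.index Fact.out hl0
    (Nat.pos_of_ne_zero hidx) hil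
  obtain ⟨s, hs⟩ : g ^ r.range.index ∈ r.range := Subgroup.pow_index_mem r.range g
  have hz := root_one A (psi ϑ R χ M e κ g * psi ϑ R χ' M e' κ' g⁻¹) r.range.index ?_ ?_ hN
  · have h1 : psi ϑ R χ' M e' κ' g⁻¹ * psi ϑ R χ' M e' κ' g = 1 := by
      rw [← map_mul, inv_mul_cancel, map_one]
    have h2 : psi ϑ R χ M e κ g = psi ϑ R χ' M e' κ' g := by
      have h3 := congrArg (fun z => z * psi ϑ R χ' M e' κ' g) hz
      simp only [mul_assoc, h1, mul_one, one_mul] at h3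
      exact h3
    exact h2
  · rw [mul_pow, ← map_pow, ← map_pow, inv_pow, ← hs, hK s, ← map_mul, mul_inv_cancel, map_one]
  · have h1 : IsLocalRing.residue A (psi ϑ R χ M e κ g) =
        IsLocalRing.residue A (psi ϑ R χ' M e' κ' g) := hres g
    rw [map_mul, h1, ← map_mul, ← map_mul, mul_inv_cancel, map_one, map_one]

end Pool.Agent.Helper3.REC

namespace REC

theorem SP1 (hSP0 : ST_SP0) (hFXF : ST_FXF) (hIXB : ST_IXB) (hBCF : ST_BCF)
    (hBCT : ST_BCT) : ST_SP1 :=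
  Pool.Agent.Helper3.REC.st_SP1 hSP0 hFXF hIXB hBCF hBCT

end REC
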