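import Pool.Agent.Helper85.REC.Stmts14b
import Pool.Agent.Helper22.MU.FRE
import Pool.Agent.Helper98.REC.OVP

/-!
# Row EMF: the embeddings of a number field over a place above a large prime
-/

set_option autoImplicit false

open scoped Classical
open NumberField Polynomial

namespace REC

open Pool.Agent.Helper13.ZL (Pl q)
open MU

namespace EMF

theorem pow_inj_aux {κ : Type} [Field κ] [Finite κ] {l f : ℕ} [Fact l.Prime] [CharP κ l]
    (hf : Nat.card κ = l ^ f) {i j : ℕ} (hj : j < f) (hij : i ≤ j)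
    (h : ∀ z : κ, z ^ l ^ i = z ^ l ^ j) : i = j := by
  by_contra hne
  have hl : l.Prime := Fact.out
  have hlt : 0 < j - i := by omega
  have h1 : ∀ z : κ, z ^ l ^ (j - i) = z := by
    intro z
    have h2 : (z ^ l ^ (j - i)) ^ l ^ i = z ^ l ^ i := by
      rw [← pow_mul, ← pow_add, Nat.sub_add_cancel hij, h z]
    have h3 : (z ^ l ^ (j - i) - z) ^ l ^ i = 0 := by
      rw [sub_pow_char_pow, h2, sub_self]
    exact sub_eq_zero.1 (pow_eq_zero_iff (pow_ne_zero _ hl.ne_zero) |>.1 h3)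
  have := Fintype.ofFinite κ
  have hp : 1 < l ^ (j - i) := Nat.one_lt_pow hlt.ne' hl.one_lt
  have h4 := FiniteField.X_pow_card_sub_X_ne_zero κ hp
  have h5 : (Finset.univ : Finset κ).val ⊆ (Polynomial.X ^ l ^ (j - i) - Polynomial.X : κ[X]).roots := by
    intro z _
    rw [mem_roots h4, IsRoot.def, eval_sub, eval_pow, eval_X, h1, sub_self]
  have h6 := Polynomial.card_le_degree_of_subset_roots h5
  rw [FiniteField.X_pow_card_sub_X_natDegree_eq κ hp, Finset.card_univ, ← Nat.card_eq_fintype_card,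
    hf] at h6
  have h7 : l ^ (j - i) < l ^ f := Nat.pow_lt_pow_right hl.one_lt (by omega)
  omega

theorem pow_inj {κ : Type} [Field κ] [Finite κ] {l f : ℕ} [Fact l.Prime] [CharP κ l]
    (hf : Nat.card κ = l ^ f) {i j : ℕ} (hi : i < f) (hj : j < f)
    (h : ∀ z : κ, z ^ l ^ i = z ^ l ^ j) : i = j := by
  rcases le_total i j with hij | hij
  · exact pow_inj_aux hf hj hij h
  · exact (pow_inj_aux hf hi hij fun z => (h z).symm).symm

/-- two embeddings of a finite field differ by a power of the Frobenius automorphism -/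
theorem emb {κ k : Type} [Field κ] [Finite κ] [Field k] [IsAlgClosed k] {l f : ℕ} [Fact l.Prime]
    [CharP κ l] [CharP k l] (hf : Nat.card κ = l ^ f) (χ θ : κ →+* k) :
    ∃ i : Fin f, ∀ z, χ z = θ z ^ l ^ (i : ℕ) := by
  have hl : l.Prime := Fact.out
  let _ : Algebra (ZMod l) κ := ZMod.algebra κ l
  let _ : Algebra (ZMod l) k := ZMod.algebra k l
  have hfin : Module.finrank (ZMod l) κ = f := by
    have h1 := Module.natCard_eq_pow_finrank (K := ZMod l) (V := κ)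
    rw [hf, Nat.card_zmod] at h1
    exact (Nat.pow_right_injective hl.two_le h1).symm
  have hfd : FiniteDimensional (ZMod l) κ := inferInstance
  have hcard : Fintype.card (κ →ₐ[ZMod l] k) = f := by
    rw [AlgHom.card, hfin]
  let θa : κ →ₐ[ZMod l] k := ⟨θ, fun r => by
    obtain ⟨n, rfl⟩ := ZMod.natCast_zmod_surjective r
    simp⟩
  let χa : κ →ₐ[ZMod l] k := ⟨χ, fun r => by
    obtain ⟨n, rfl⟩ := ZMod.natCast_zmod_surjective r
    simp⟩
  let Φ : Fin f → (κ →ₐ[ZMod l] k) := fun i =>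
    θa.comp ((FiniteField.frobeniusAlgHom (ZMod l) κ) ^ (i : ℕ))
  have hΦ : ∀ (i : Fin f) (z : κ), Φ i z = θ z ^ l ^ (i : ℕ) := by
    intro i z
    change θ (((FiniteField.frobeniusAlgHom (ZMod l) κ) ^ (i : ℕ)) z) = _
    rw [AlgHom.coe_pow, FiniteField.coe_frobeniusAlgHom, pow_iterate, ZMod.card, map_pow]
  have hinj : Function.Injective Φ := by
    intro i j hij
    apply Fin.ext
    apply pow_inj hf i.2 j.2
    intro z
    apply θ.injective
    rw [map_pow, map_pow, ← hΦ, ← hΦ, hij]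
  have hbij : Function.Bijective Φ := by
    rw [Fintype.bijective_iff_injective_and_card]
    exact ⟨hinj, by rw [hcard, Fintype.card_fin]⟩
  obtain ⟨i, hi⟩ := hbij.2 χa
  refine ⟨i, fun z => ?_⟩
  rw [← hΦ, hi]
  rfl

variable {F : Type} [Field F] [NumberField F]

theorem pair (τ τ' : F →+* AlgebraicClosure F) (h : τ ≠ τ') : ∃ n : ℕ, 0 < n ∧
    ∀ (k : Type) [Field k] (ι : 𝓞 (AlgebraicClosure F) →+* k),
      (∀ x : 𝓞 F, ι (RingOfIntegers.mapRingHom τ x) = ι (RingOfIntegers.mapRingHom τ' x)) →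
      (n : k) = 0 := by
  have h1 : ∃ x : 𝓞 F, τ (x : F) ≠ τ' (x : F) := by
    by_contra hcon
    push Not at hcon
    apply h
    apply IsLocalization.ringHom_ext (nonZeroDivisors (𝓞 F))
    ext x
    exact hcon x
  obtain ⟨x, hx⟩ := h1
  obtain ⟨δ, hδ⟩ : ∃ δ : 𝓞 (AlgebraicClosure F),
      δ = RingOfIntegers.mapRingHom τ x - RingOfIntegers.mapRingHom τ' x := ⟨_, rfl⟩
  have hδ0 : δ ≠ 0 := by
    intro h0
    apply hx
    have h2 : (δ : AlgebraicClosure F) = τ (x : F) - τ' (x : F) := by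
      rw [hδ]
      rfl
    rw [h0] at h2
    exact (sub_eq_zero.1 (by rw [← h2]; rfl))
  have h3 := Ideal.comap_ne_bot_of_integral_mem (R := ℤ) (I := Ideal.span {δ}) hδ0
    (Ideal.mem_span_singleton_self δ) (RingOfIntegers.isIntegral δ)
  obtain ⟨n, hn, hn0⟩ := Submodule.exists_mem_ne_zero_of_ne_bot h3
  refine ⟨n.natAbs, Int.natAbs_pos.2 hn0, fun k _ ι hι => ?_⟩
  rw [Ideal.mem_comap, Ideal.mem_span_singleton] at hn
  obtain ⟨y, hy⟩ := hn
  have h4 : ((n : ℤ) : k) = 0 := by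
    have h5 := congrArg ι hy
    rw [map_mul, hδ, map_sub, hι x, sub_self, zero_mul] at h5
    rw [← h5]
    simp
  rw [← Int.cast_natCast, Int.natCast_natAbs]
  rcases abs_choice n with h6 | h6
  · rw [h6, h4]
  · rw [h6, Int.cast_neg, h4, neg_zero]

/-- reduction modulo a large prime is injective on the embeddings -/
theorem big (F : Type) [Field F] [NumberField F] : ∃ c : ℕ, ∀ (l : ℕ) [Fact l.Prime], c < l →
    ∀ (k : Type) [Field k] (ι : 𝓞 (AlgebraicClosure F) →+* k), ι l = 0 →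
    ∀ τ τ' : F →+* AlgebraicClosure F,
      (∀ x : 𝓞 F, ι (RingOfIntegers.mapRingHom τ x) = ι (RingOfIntegers.mapRingHom τ' x)) →
      τ = τ' := by
  choose n hn0 hn using fun p : {p : (F →+* AlgebraicClosure F) × (F →+* AlgebraicClosure F) //
    p.1 ≠ p.2} => pair p.1.1 p.1.2 p.2
  refine ⟨∑ p, n p, fun l _ hl k _ ι hι τ τ' h => ?_⟩
  by_contra hne
  have hp : l.Prime := Fact.out
  have hlk : (l : k) = 0 := by rw [← hι, map_natCast]
  have : CharP k l := (CharP.charP_iff_prime_eq_zero hp).2 hlk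
  have h1 := hn ⟨(τ, τ'), hne⟩ k ι h
  rw [CharP.cast_eq_zero_iff k l] at h1
  have h2 := Nat.le_of_dvd (hn0 _) h1
  have h3 := Finset.single_le_sum (f := n) (fun i _ => Nat.zero_le _)
    (Finset.mem_univ (⟨(τ, τ'), hne⟩ : {p : (F →+* AlgebraicClosure F) ×
      (F →+* AlgebraicClosure F) // p.1 ≠ p.2}))
  omega

/-- the action of an automorphism on the algebraic integers -/
noncomputable def act (σ : GalQ F) : 𝓞 (AlgebraicClosure F) →+* 𝓞 (AlgebraicClosure F) :=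
  RingOfIntegers.mapRingHom (σ : AlgebraicClosure F →+* AlgebraicClosure F)

theorem act_coe (σ : GalQ F) (x : 𝓞 (AlgebraicClosure F)) :
    (act σ x : AlgebraicClosure F) = σ (x : AlgebraicClosure F) := rfl

theorem act_mul (σ τ : GalQ F) (x : 𝓞 (AlgebraicClosure F)) :
    act (σ * τ) x = act σ (act τ x) := RingOfIntegers.ext rfl

theorem act_inv (σ : GalQ F) (x : 𝓞 (AlgebraicClosure F)) : act σ (act σ⁻¹ x) = x := by
  rw [← act_mul, mul_inv_cancel]
  exact RingOfIntegers.ext rfl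

/-- transitivity, in terms of `act` -/
theorem trans {l : ℕ} (hl : l.Prime) (P Q : Ideal (𝓞 (AlgebraicClosure F))) (hP : P.IsPrime)
    (hQ : Q.IsPrime) (hlP : (l : 𝓞 (AlgebraicClosure F)) ∈ P)
    (hlQ : (l : 𝓞 (AlgebraicClosure F)) ∈ Q) :
    ∃ g : GalQ F, ∀ x : 𝓞 (AlgebraicClosure F), x ∈ P ↔ act g x ∈ Q := by
  obtain ⟨g, hg⟩ := (st_FRE F l hl).2 P Q ⟨hP, hlP⟩ ⟨hQ, hlQ⟩
  exact ⟨g, fun x => hg x (act g x) rfl⟩

/-- a Frobenius element at the kernel of `ι` -/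
theorem frob {l : ℕ} [Fact l.Prime] {k : Type} [Field k] (ι : 𝓞 (AlgebraicClosure F) →+* k)
    (hι : ι l = 0) : ∃ φ : GalQ F, ∀ y : 𝓞 (AlgebraicClosure F), ι (act φ y) = ι y ^ l := by
  have hl : l.Prime := Fact.out
  obtain ⟨𝔓, h𝔓, φ, hφ⟩ := (st_FRE F l hl).1
  let P : Ideal (𝓞 (AlgebraicClosure F)) := 𝔓
  have hP : P.IsPrime := h𝔓.1
  have hlP : (l : 𝓞 (AlgebraicClosure F)) ∈ P := h𝔓.2
  have hφ' : ∀ x : 𝓞 (AlgebraicClosure F), act φ x - x ^ l ∈ P := fun x => hφ x (act φ x) rfl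
  obtain ⟨g, hg⟩ := trans hl P (RingHom.ker ι) hP (RingHom.ker_isPrime ι) hlP hι
  refine ⟨g * φ * g⁻¹, fun y => ?_⟩
  have h1 := (hg _).1 (hφ' (act g⁻¹ y))
  rw [RingHom.mem_ker, map_sub, map_sub, map_pow, act_inv, map_pow, sub_eq_zero] at h1
  rw [act_mul, act_mul, h1]

theorem frob_pow {l : ℕ} {k : Type} [Field k] (ι : 𝓞 (AlgebraicClosure F) →+* k)
    (φ : GalQ F) (hφ : ∀ y : 𝓞 (AlgebraicClosure F), ι (act φ y) = ι y ^ l) (n : ℕ)
    (y : 𝓞 (AlgebraicClosure F)) : ι (act (φ ^ n) y) = ι y ^ l ^ n := by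
  induction n generalizing y with
  | zero =>
    rw [pow_zero, pow_zero, pow_one]
    exact congrArg ι (RingOfIntegers.ext rfl)
  | succ n ih => rw [pow_succ φ n, act_mul, ih, hφ, ← pow_mul, ← pow_succ']

end EMF

open EMF in
theorem st_EMF : ST_EMF := by
  intro F _ _
  obtain ⟨c, hc⟩ := big F
  refine ⟨c, fun l _ hl k _ _ ι hι v hv => ?_⟩
  have hp : l.Prime := Fact.out
  have hlk : (l : k) = 0 := by rw [← hι, map_natCast]
  have hck : CharP k l := (CharP.charP_iff_prime_eq_zero hp).2 hlk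
  obtain ⟨𝔓, h𝔓⟩ := (st_OVP F).1 v
  let P : Ideal (𝓞 (AlgebraicClosure F)) := 𝔓
  have hP : P.IsPrime := h𝔓.1
  have hlP : (l : 𝓞 (AlgebraicClosure F)) ∈ P :=
    (h𝔓.2 (l : 𝓞 F) (l : Zb F) (by simp)).2 hv
  obtain ⟨γ, hγ⟩ := trans hp P (RingHom.ker ι) hP (RingHom.ker_isPrime ι) hlP hι
  obtain ⟨φ, hφ⟩ := frob ι hι
  let θ0 : 𝓞 (AlgebraicClosure F) →+* k := ι.comp (act γ)
  let θ : Zb F →+* k := θ0
  have hθ : RingHom.ker θ = 𝔓 := by
    ext x
    exact (hγ x).symm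
  have hOver : OverP v (RingHom.ker θ) := by
    rw [hθ]
    exact h𝔓
  obtain ⟨p, f, hp', hf, hq, hOv, hpv⟩ := (st_OVP F).2.2.2.1 v 𝔓 h𝔓
  have hpl : p = l := by
    by_contra hne
    have hco : IsCoprime (p : ℤ) (l : ℤ) := Nat.isCoprime_iff_coprime.2 ((Nat.coprime_primes hp' hp).2 hne)
    obtain ⟨a, b, hab⟩ := hco
    apply hP.ne_top
    rw [Ideal.eq_top_iff_one]
    have h1 : ((a * p + b * l : ℤ) : 𝓞 (AlgebraicClosure F)) ∈ P := by
      push_cast
      exact P.add_mem (P.mul_mem_left _ hOv.2) (P.mul_mem_left _ hlP)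
    rw [hab, Int.cast_one] at h1
    exact h1
  subst hpl
  let e : 𝓞 F →+* 𝓞 (AlgebraicClosure F) :=
    RingOfIntegers.mapRingHom (algebraMap F (AlgebraicClosure F))
  let θF : 𝓞 F →+* k := θ0.comp e
  have hθF : ∀ x : 𝓞 F, θF x = 0 ↔ x ∈ v.asIdeal := fun x =>
    ((hγ (e x)).symm.trans (h𝔓.2 x (e x) rfl))
  let T : Fin f → F →+* AlgebraicClosure F := fun i =>
    ((φ ^ (i : ℕ) * γ : GalQ F) : AlgebraicClosure F →+* AlgebraicClosure F).comp
      (algebraMap F (AlgebraicClosure F))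
  have key : ∀ (i : Fin f) (x : 𝓞 F),
      ι (RingOfIntegers.mapRingHom (T i) x) = θF x ^ p ^ (i : ℕ) := by
    intro i x
    have h1 : RingOfIntegers.mapRingHom (T i) x = act (φ ^ (i : ℕ)) (act γ (e x)) :=
      RingOfIntegers.ext rfl
    rw [h1, frob_pow ι φ hφ]
    rfl
  have hmax : v.asIdeal.IsMaximal := v.isMaximal
  let _ : Field (𝓞 F ⧸ v.asIdeal) := Ideal.Quotient.field v.asIdeal
  have hcard : Nat.card (𝓞 F ⧸ v.asIdeal) = p ^ f := by
    rw [← hq]
    rfl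
  have hfin : Finite (𝓞 F ⧸ v.asIdeal) := by
    apply Nat.finite_of_card_ne_zero
    rw [hcard]
    exact pow_ne_zero _ hp.ne_zero
  have hlκ : (p : 𝓞 F ⧸ v.asIdeal) = 0 := by
    have := Ideal.Quotient.eq_zero_iff_mem.2 hv
    rwa [map_natCast] at this
  have hcκ : CharP (𝓞 F ⧸ v.asIdeal) p := (CharP.charP_iff_prime_eq_zero hp).2 hlκ
  let θb : (𝓞 F ⧸ v.asIdeal) →+* k := Ideal.Quotient.lift v.asIdeal θF fun x hx => (hθF x).2 hx
  have hθb : ∀ x : 𝓞 F, θb (Ideal.Quotient.mk v.asIdeal x) = θF x := fun x => rfl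
  have hTinj : Function.Injective T := by
    intro i j hij
    apply Fin.ext
    apply pow_inj hcard i.2 j.2
    intro z
    obtain ⟨x, rfl⟩ := Ideal.Quotient.mk_surjective z
    apply θb.injective
    rw [map_pow, map_pow, hθb, ← key, ← key, hij]
  refine ⟨θ, f, T, ?_, hOver, hf, hq, hTinj, ?_, ?_⟩
  · rw [map_natCast, hlk]
  · intro τ
    constructor
    · rintro ⟨i, rfl⟩
      ext x
      rw [RingHom.mem_ker, RingHom.comp_apply, key, pow_eq_zero_iff (pow_ne_zero _ hp.ne_zero),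
        hθF]
    · intro h
      have hχ : ∀ x ∈ v.asIdeal, (ι.comp (RingOfIntegers.mapRingHom τ)) x = 0 := by
        intro x hx
        rw [← h] at hx
        exact hx
      obtain ⟨i, hi⟩ := emb hcard (Ideal.Quotient.lift v.asIdeal
        (ι.comp (RingOfIntegers.mapRingHom τ)) hχ) θb
      refine ⟨i, (hc p hl k ι hι τ (T i) fun x => ?_).symm⟩
      rw [key, ← hθb, ← hi]
      rfl
  · intro i x xb hx
    rw [key]
    have h1 : xb = (e x : 𝓞 (AlgebraicClosure F)) := Subtype.ext hx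
    rw [h1]
    rfl

end REC
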