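import Pool.Agent.Helper15.REC.FDC
import Pool.Agent.Helper27.REC.XWD
import Pool.Agent.Helper27.REC.StmtsT2

set_option autoImplicit false

/-! REC, row FLD: first part, the action of inertia on the determinant of a stable subspace. -/

open scoped Classical
open NumberField Polynomial

namespace Pool.Agent.Helper3.REC

open _root_.REC
open Pool.Agent.Helper13.ZL (Pl q)
open MU
open Pool.Agent.Helper61.REC
open Pool.Agent.Helper52.REC
open Pool.Agent.Helper15.REC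

/-! ### Polynomials -/

/-- monic divisors of a product of linear factors -/
theorem monic_dvd_prod {k ι : Type} [Field k] (e : ι → k) (s : Finset ι) :
    ∀ Q : k[X], Q.Monic → Q ∣ ∏ x ∈ s, (Polynomial.X - C (e x)) →
      ∃ t ⊆ s, Q = ∏ x ∈ t, (Polynomial.X - C (e x)) := by
  induction s using Finset.induction_on with
  | empty =>
    intro Q hQ hd
    rw [Finset.prod_empty] at hd
    exact ⟨∅, Finset.Subset.refl _, by rw [Finset.prod_empty]; exact hQ.eq_one_of_isUnit (isUnit_of_dvd_one hd)⟩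
  | insert a s ha ih =>
    intro Q hQ hd
    rw [Finset.prod_insert ha] at hd
    by_cases h : (Polynomial.X - C (e a)) ∣ Q
    · obtain ⟨Q', rfl⟩ := h
      have h1 : Q'.Monic := (monic_X_sub_C (e a)).of_mul_monic_left hQ
      have h2 : Q' ∣ ∏ x ∈ s, (Polynomial.X - C (e x)) :=
        (mul_dvd_mul_iff_left (X_sub_C_ne_zero (e a))).1 hd
      obtain ⟨t, ht, rfl⟩ := ih Q' h1 h2
      exact ⟨insert a t, Finset.insert_subset_insert _ ht, by
        rw [Finset.prod_insert fun h3 => ha (ht h3)]⟩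
    · have h1 : IsCoprime Q (Polynomial.X - C (e a)) :=
        ((irreducible_X_sub_C (e a)).coprime_iff_not_dvd.2 h).symm
      obtain ⟨t, ht, hQt⟩ := ih Q hQ (h1.dvd_of_dvd_mul_left hd)
      exact ⟨t, ht.trans (Finset.subset_insert _ _), hQt⟩

/-- the determinant of a stable subspace, if the characteristic polynomial is a product of linear
factors -/
theorem sub_det {k : Type} [Field k] {m j : ℕ} (R : Matrix (Fin m) (Fin m) k)
    (B : Matrix (Fin m) (Fin j) k) (A : Matrix (Fin j) (Fin j) k) (C' : Matrix (Fin j) (Fin m) k)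
    (hC : C' * B = 1) (hA : R * B = B * A) (e : Fin m → k)
    (he : R.charpoly = ∏ x, (Polynomial.X - C (e x))) :
    ∃ X₀ : Finset (Fin m), X₀.card = j ∧ A.det = ∏ x ∈ X₀, e x := by
  have h1 : A.charpoly ∣ ∏ x, (Polynomial.X - C (e x)) := by
    rw [← he]
    exact sub_charpoly_dvd hC hA
  obtain ⟨t, -, ht⟩ := monic_dvd_prod e Finset.univ _ A.charpoly_monic h1
  refine ⟨t, ?_, ?_⟩
  · have h2 := congrArg Polynomial.natDegree ht
    rw [Matrix.charpoly_natDegree_eq_dim, Fintype.card_fin,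
      natDegree_prod_of_monic _ _ fun x _ => monic_X_sub_C (e x)] at h2
    simp only [natDegree_X_sub_C, Finset.sum_const, smul_eq_mul, mul_one] at h2
    exact h2.symm
  · have h2 : t.card = j := by
      have h2 := congrArg Polynomial.natDegree ht
      rw [Matrix.charpoly_natDegree_eq_dim, Fintype.card_fin,
        natDegree_prod_of_monic _ _ fun x _ => monic_X_sub_C (e x)] at h2
      simp only [natDegree_X_sub_C, Finset.sum_const, smul_eq_mul, mul_one] at h2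
      exact h2.symm
    have h3 : A.charpoly.coeff 0 = (-1) ^ j * ∏ x ∈ t, e x := by
      rw [ht, coeff_zero_eq_eval_zero, eval_prod]
      simp only [eval_sub, eval_X, eval_C, zero_sub]
      rw [Finset.prod_neg, h2]
    rw [charpoly_coeff_zero] at h3
    exact mul_left_cancel₀ (pow_ne_zero _ (neg_ne_zero.2 one_ne_zero)) h3

/-! ### Inertia acts through the fundamental character -/

section

variable {F : Type} [Field F] [NumberField F]

/-- the data at one place over `l` -/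
structure Lc (l : ℕ) {k : Type} [Field k] (θ : Zb F →+* k) (r : ℕ) (σ0 : Gal F) (z0 : k) :
    Prop where
  ex : ∀ (r : ℕ) (σ : Gal F), 0 < r → CongPow (RingHom.ker θ) 1 σ →
      ∃ a : k, FCh l θ r σ a ∧ a ^ (l ^ r - 1) = 1
  uniq : ∀ (r : ℕ) (σ : Gal F) (a b : k), 0 < r → CongPow (RingHom.ker θ) 1 σ → FCh l θ r σ a →
      FCh l θ r σ b → a = b
  mul : ∀ (r : ℕ) (σ τ : Gal F) (a b : k), 0 < r → CongPow (RingHom.ker θ) 1 σ →
      CongPow (RingHom.ker θ) 1 τ → FCh l θ r σ a → FCh l θ r τ b → FCh l θ r (σ * τ) (a * b)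
  lev : ∀ (r s : ℕ) (σ : Gal F) (a : k), 0 < r → 0 < s → CongPow (RingHom.ker θ) 1 σ →
      FCh l θ (r * s) σ a → FCh l θ r σ (a ^ ((l ^ (r * s) - 1) / (l ^ r - 1)))
  two : 2 ≤ l
  inv : ∀ σ : Gal F, CongPow (RingHom.ker θ) 1 σ → CongPow (RingHom.ker θ) 1 (σ⁻¹ : Gal F)
  pos : 0 < r
  i0 : CongPow (RingHom.ker θ) 1 σ0
  f0 : FCh l θ r σ0 z0
  ord : orderOf z0 = l ^ r - 1

/-- the digits -/
noncomputable def dgt {r : ℕ} (hr : 0 < r) (D : Fin r → ℕ) (i : ℕ) : ℕ := D ⟨i % r, Nat.mod_lt _ hr⟩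

theorem dgt_period {r : ℕ} (hr : 0 < r) (D : Fin r → ℕ) (i : ℕ) :
    dgt hr D (i + r) = dgt hr D i := by
  unfold dgt
  congr 1
  exact Fin.ext (Nat.add_mod_right i r)

theorem dgt_sum {r : ℕ} (hr : 0 < r) (D : Fin r → ℕ) (l : ℕ) :
    ∑ i : Fin r, l ^ (i : ℕ) * D i = ∑ i ∈ Finset.range r, l ^ i * dgt hr D i := by
  rw [Finset.sum_range]
  refine Finset.sum_congr rfl fun i _ => ?_
  unfold dgt
  congr 2
  exact Fin.ext (Nat.mod_eq_of_lt i.2).symm

section

variable {l : ℕ} {k : Type} [Field k] {θ : Zb F →+* k} {r : ℕ} {σ0 : Gal F} {z0 : k}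

theorem Lc.pw (L : Lc l θ r σ0 z0) (m : ℕ) :
    CongPow (RingHom.ker θ) 1 (σ0 ^ m : Gal F) ∧ FCh l θ r (σ0 ^ m) (z0 ^ m) := by
  induction m with
  | zero =>
    rw [pow_zero, pow_zero]
    refine ⟨H72.congPow_one _, ?_⟩
    obtain ⟨a, ha, -⟩ := L.ex r 1 L.pos (H72.congPow_one _)
    have h1 := L.mul r 1 1 a a L.pos (H72.congPow_one _) (H72.congPow_one _) ha ha
    rw [one_mul] at h1
    have h2 := L.uniq r 1 _ _ L.pos (H72.congPow_one _) ha h1
    have h3 : a ≠ 0 := by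
      rintro rfl
      obtain ⟨b, hb, hb1⟩ := L.ex r 1 L.pos (H72.congPow_one _)
      have h4 := L.uniq r 1 _ _ L.pos (H72.congPow_one _) ha hb
      rw [← h4, zero_pow] at hb1
      · exact zero_ne_one hb1
      · have : l ^ r ≥ 2 := L.two.trans (Nat.le_self_pow L.pos.ne' l)
        omega
    have h4 : a = 1 := by
      have : a * a = a * 1 := by rw [mul_one]; exact h2.symm
      exact mul_left_cancel₀ h3 this
    rw [← h4]
    exact ha
  | succ m ih =>
    refine ⟨?_, ?_⟩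
    · have := H72.congPow_mul _ _ _ _ _ ih.1 L.i0
      rw [mul_one] at this
      rw [pow_succ]
      exact this
    · rw [pow_succ, pow_succ]
      exact L.mul r _ _ _ _ L.pos ih.1 L.i0 ih.2 L.f0

/-- every element of the inertia group is a power of `σ0` times an element with value `1` -/
theorem Lc.dec (L : Lc l θ r σ0 z0) (σ : Gal F) (a : k) (hσ : CongPow (RingHom.ker θ) 1 σ)
    (ha : FCh l θ r σ a) : ∃ m : ℕ, z0 ^ m = a ∧
      CongPow (RingHom.ker θ) 1 (σ * (σ0 ^ m)⁻¹ : Gal F) ∧ FCh l θ r (σ * (σ0 ^ m)⁻¹) 1 := by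
  have hN : 0 < l ^ r - 1 := by
    have : l ^ r ≥ 2 := L.two.trans (Nat.le_self_pow L.pos.ne' l)
    omega
  have hprim : IsPrimitiveRoot z0 (l ^ r - 1) := by
    rw [← L.ord]
    exact IsPrimitiveRoot.orderOf z0
  have ha1 : a ^ (l ^ r - 1) = 1 := by
    obtain ⟨a', h1, h2⟩ := L.ex r σ L.pos hσ
    rw [L.uniq r σ _ _ L.pos hσ ha h1]
    exact h2
  have : NeZero (l ^ r - 1) := ⟨hN.ne'⟩
  obtain ⟨m, -, hm⟩ := hprim.eq_pow_of_pow_eq_one ha1
  obtain ⟨hp1, hp2⟩ := L.pw m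
  have hq : CongPow (RingHom.ker θ) 1 (σ * (σ0 ^ m)⁻¹ : Gal F) := by
    have := H72.congPow_mul _ _ _ _ _ hσ (L.inv _ hp1)
    rw [mul_one] at this
    exact this
  obtain ⟨a', h1, h2⟩ := L.ex r _ L.pos hq
  have h3 := L.mul r _ _ _ _ L.pos hq hp1 h1 hp2
  rw [inv_mul_cancel_right, hm] at h3
  have h4 := L.uniq r _ _ _ L.pos hσ ha h3
  have ha0 : a ≠ 0 := by
    rintro rfl
    rw [zero_pow hN.ne'] at ha1
    exact zero_ne_one ha1
  have h5 : a' = 1 := by
    have : a' * a = 1 * a := by rw [one_mul]; exact h4.symm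
    exact mul_right_cancel₀ ha0 this
  rw [h5] at h1
  exact ⟨m, hm, hq, h1⟩

/-- the character is a power of the fundamental character -/
theorem Lc.val (L : Lc l θ r σ0 z0) (δ : Gal F →* kˣ) (E : ℕ)
    (h0 : ((δ σ0⁻¹ : kˣ) : k) = z0 ^ E)
    (h1 : ∀ σ : Gal F, CongPow (RingHom.ker θ) 1 σ → FCh l θ r σ 1 → δ σ⁻¹ = 1)
    (σ : Gal F) (a : k) (hσ : CongPow (RingHom.ker θ) 1 σ) (ha : FCh l θ r σ a) :
    ((δ σ⁻¹ : kˣ) : k) = a ^ E := by
  obtain ⟨m, hm, hq, hq1⟩ := L.dec σ a hσ ha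
  have h8 := h1 _ hq hq1
  rw [map_inv, inv_eq_one, map_mul, map_inv, map_pow, mul_inv_eq_one] at h8
  rw [map_inv] at h0
  rw [map_inv, h8, ← inv_pow, Units.val_pow_eq_pow_val, h0, ← hm, ← pow_mul, ← pow_mul, mul_comm]

/-- the digits have period `f` -/
theorem Lc.per (hDIG : ST_DIG) (L : Lc l θ r σ0 z0) (D : Fin r → ℕ) (hD : ∀ i, D i + 1 < l)
    (f Q : ℕ) (hQ : Q = l ^ f) (φ : Gal F) (δ : Gal F →* kˣ)
    (hφ : CongPow (RingHom.ker θ) 1 (φ * σ0 * φ⁻¹ : Gal F))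
    (hφv : FCh l θ r (φ * σ0 * φ⁻¹) (z0 ^ Q))
    (ht : ∀ (σ : Gal F) (a : k), CongPow (RingHom.ker θ) 1 σ → FCh l θ r σ a →
      ((δ σ⁻¹ : kˣ) : k) = a ^ (∑ i : Fin r, l ^ (i : ℕ) * D i)) (i : ℕ) :
    dgt L.pos D (i + f) = dgt L.pos D i := by
  refine hDIG l r f (dgt L.pos D) (by have := L.two; omega) L.pos (fun i => hD _)
    (dgt_period L.pos D) ?_ i
  rw [← dgt_sum L.pos D l]
  have h1 := ht _ _ L.i0 L.f0
  have h2 := ht _ _ hφ hφv
  have h3 : δ (φ * σ0 * φ⁻¹)⁻¹ = δ σ0⁻¹ := by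
    rw [map_inv, map_mul, map_mul, map_inv, mul_right_comm, mul_inv_cancel, one_mul, map_inv]
  rw [h3, h1] at h2
  rw [← L.ord]
  refine orderOf_dvd_of_pow_eq_one ?_
  have hz : z0 ≠ 0 := by
    rintro rfl
    have h4 : orderOf (0 : k) ≠ 0 := by
      rw [L.ord]
      have : l ^ r ≥ 2 := L.two.trans (Nat.le_self_pow L.pos.ne' l)
      omega
    have h5 := pow_orderOf_eq_one (0 : k)
    rw [zero_pow h4] at h5
    exact zero_ne_one h5
  have hQ1 : 1 ≤ l ^ f := Nat.one_le_pow _ _ (by have := L.two; omega)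
  set E := ∑ i : Fin r, l ^ (i : ℕ) * D i with hE
  have h6 : z0 ^ (E * (l ^ f - 1)) * z0 ^ E = 1 * z0 ^ E := by
    rw [one_mul, ← pow_add]
    have : E * (l ^ f - 1) + E = Q * E := by
      rw [hQ, Nat.mul_sub, mul_one, Nat.sub_add_cancel (Nat.le_mul_of_pos_right _ hQ1), mul_comm]
    rw [this, pow_mul]
    exact h2.symm
  exact mul_right_cancel₀ (pow_ne_zero _ hz) h6

/-- comparison with level `f` -/
theorem Lc.levf (L : Lc l θ r σ0 z0) (D : Fin r → ℕ) (f : ℕ) (hf : 0 < f) (δ : Gal F →* kˣ)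
    (ht : ∀ (σ : Gal F) (a : k), CongPow (RingHom.ker θ) 1 σ → FCh l θ r σ a →
      ((δ σ⁻¹ : kˣ) : k) = a ^ (∑ i : Fin r, l ^ (i : ℕ) * D i))
    (hper : ∀ i, dgt L.pos D (i + f) = dgt L.pos D i)
    (σ : Gal F) (w : k) (hσ : CongPow (RingHom.ker θ) 1 σ) (hw : FCh l θ f σ w) :
    ((δ σ⁻¹ : kˣ) : k) = w ^ (∑ i ∈ Finset.range f, l ^ i * dgt L.pos D i) := by
  obtain ⟨A, hA, -⟩ := L.ex (r * f) σ (Nat.mul_pos L.pos hf) hσ
  have h1 := L.lev r f σ A L.pos hf hσ hA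
  have h2 := L.lev f r σ A hf L.pos hσ (by rw [mul_comm f r]; exact hA)
  have h3 := L.uniq f σ _ _ hf hσ hw h2
  rw [ht σ _ hσ h1, dgt_sum L.pos D l, h3, ← pow_mul, ← pow_mul,
    ← sum_period l r _ L.two L.pos (dgt_period L.pos D) f,
    ← sum_period l f _ L.two hf hper r, mul_comm f r]

end

end

end Pool.Agent.Helper3.REC
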