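import Pool.Agent.Helper27.REC.StmtsT3
import Pool.Agent.Helper88.REC.SYF

set_option autoImplicit false

/-! REC, row INK: first part, the direct summands. -/

open scoped Classical
open NumberField Polynomial

namespace Pool.Agent.Helper3.REC

open _root_.REC
open MU

/-! ### Denominators -/

theorem ex_den {ι κ : Type} [Fintype ι] [Fintype κ] (X : Matrix ι κ ℚ) :
    ∃ d : ℕ, 0 < d ∧ ∀ D : ℕ, d ∣ D →
      ∃ Z : Matrix ι κ ℤ, Z.map (Int.castRingHom ℚ) = (D : ℚ) • X := by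
  refine ⟨∏ i, ∏ j, (X i j).den, Finset.prod_pos fun i _ => Finset.prod_pos fun j _ =>
    (X i j).den_pos, fun D hD => ?_⟩
  have h1 : ∀ i j, (X i j).den ∣ D := fun i j =>
    ((Finset.dvd_prod_of_mem _ (Finset.mem_univ j)).trans
      (Finset.dvd_prod_of_mem (fun i => ∏ j, (X i j).den) (Finset.mem_univ i))).trans hD
  refine ⟨Matrix.of fun i j => (D / (X i j).den : ℕ) * (X i j).num, ?_⟩
  ext i j
  obtain ⟨e, he⟩ := h1 i j
  have h2 : ((X i j).den : ℚ) ≠ 0 := by exact_mod_cast (X i j).den_pos.ne'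
  have h3 : D / (X i j).den = e := by
    rw [he]
    exact Nat.mul_div_cancel_left _ (X i j).den_pos
  rw [Matrix.map_apply, Matrix.of_apply, Matrix.smul_apply, smul_eq_mul, h3, map_mul]
  have h4 : ((X i j).num : ℚ) = (X i j).den * X i j := by
    rw [mul_comm]
    exact (Rat.mul_den_eq_num (X i j)).symm
  rw [eq_intCast, eq_intCast, h4, he]
  push_cast
  ring

theorem map_zmod {ι κ R R' : Type} [CommRing R] [CommRing R'] (f : R →+* R')
    (X : Matrix ι κ ℤ) : (X.map (Int.castRingHom R)).map f = X.map (Int.castRingHom R') := by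
  ext i j
  rw [Matrix.map_apply, Matrix.map_apply, Matrix.map_apply, eq_intCast, eq_intCast, map_intCast]

theorem kron_map {ι κ ι' κ' R R' : Type} [CommRing R] [CommRing R'] (f : R →+* R')
    (A : Matrix ι κ R) (B : Matrix ι' κ' R) :
    (Matrix.kroneckerMap (· * ·) A B).map f = Matrix.kroneckerMap (· * ·) (A.map f) (B.map f) := by
  ext i j
  rw [Matrix.map_apply, Matrix.kroneckerMap_apply, Matrix.kroneckerMap_apply, map_mul,
    Matrix.map_apply, Matrix.map_apply]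

theorem smul_map {ι κ R R' : Type} [CommRing R] [CommRing R'] (f : R →+* R') (c : R)
    (A : Matrix ι κ R) : (c • A).map f = f c • A.map f := by
  ext i j
  rw [Matrix.map_apply, Matrix.smul_apply, Matrix.smul_apply, smul_eq_mul, smul_eq_mul, map_mul,
    Matrix.map_apply]

/-! ### One summand -/

section

variable {T X m : Type} [Fintype T] [Fintype X] [Fintype m] [DecidableEq T] [DecidableEq X]
  [DecidableEq m] {n : ℕ}

/-- the inclusion -/
noncomputable def inP (M : ℕ) (U : Matrix T X ℤ) (P : Matrix (X × m) (Fin n) ℤ) :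
    Matrix (T × m) (Fin n) ℤ :=
  (M : ℤ) • (Matrix.kroneckerMap (· * ·) U (1 : Matrix m m ℤ) * P)

/-- the projection -/
noncomputable def inQ (V : Matrix X T ℤ) (Q : Matrix (Fin n) (X × m) ℤ) :
    Matrix (Fin n) (T × m) ℤ :=
  Q * Matrix.kroneckerMap (· * ·) V (1 : Matrix m m ℤ)

theorem in_mul (M N : ℕ) (U : Matrix T X ℤ) (V : Matrix X T ℤ) (P : Matrix (X × m) (Fin n) ℤ)
    (Q : Matrix (Fin n) (X × m) ℤ) (h : V * U = (N : ℤ) • (1 : Matrix X X ℤ)) :
    inQ V Q * inP M U P = ((N * M : ℕ) : ℤ) • (Q * P) := by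
  unfold inP inQ
  rw [Matrix.mul_smul, Matrix.mul_assoc, ← Matrix.mul_assoc (Matrix.kroneckerMap _ V 1),
    ← Matrix.mul_kronecker_mul, h, Matrix.one_mul]
  have h1 : Matrix.kroneckerMap (· * ·) ((N : ℤ) • (1 : Matrix X X ℤ)) (1 : Matrix m m ℤ) =
      (N : ℤ) • (1 : Matrix (X × m) (X × m) ℤ) := by
    rw [Matrix.smul_kronecker, Matrix.one_kronecker_one]
  rw [h1, Matrix.smul_mul, Matrix.one_mul, Matrix.mul_smul, smul_smul]
  congr 1
  push_cast
  ring

variable {Ω : Type} [CommRing Ω]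

theorem inP_rel (M : ℕ) (U : Matrix T X ℤ) (P : Matrix (X × m) (Fin n) ℤ) (A : Matrix T T Ω)
    (S : Matrix X X Ω) (W : Matrix m m Ω) (μ : Matrix (Fin n) (Fin n) Ω)
    (hU : U.map (Int.castRingHom Ω) * S = A * U.map (Int.castRingHom Ω))
    (hP : P.map (Int.castRingHom Ω) * μ =
      Matrix.kroneckerMap (· * ·) S W * P.map (Int.castRingHom Ω)) :
    (inP M U P).map (Int.castRingHom Ω) * μ =
      Matrix.kroneckerMap (· * ·) A W * (inP M U P).map (Int.castRingHom Ω) := by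
  have h1 : (inP M U P).map (Int.castRingHom Ω) = (M : Ω) •
      (Matrix.kroneckerMap (· * ·) (U.map (Int.castRingHom Ω)) (1 : Matrix m m Ω) *
        P.map (Int.castRingHom Ω)) := by
    unfold inP
    rw [smul_map, Matrix.map_mul, kron_map,
      Matrix.map_one _ (map_zero _) (map_one _), map_natCast]
  rw [h1, Matrix.smul_mul, Matrix.mul_smul, Matrix.mul_assoc, hP, ← Matrix.mul_assoc,
    ← Matrix.mul_assoc, ← Matrix.mul_kronecker_mul, ← Matrix.mul_kronecker_mul, hU,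
    Matrix.one_mul, Matrix.mul_one]

theorem inQ_rel (V : Matrix X T ℤ) (Q : Matrix (Fin n) (X × m) ℤ) (A : Matrix T T Ω)
    (S : Matrix X X Ω) (W : Matrix m m Ω) (μ : Matrix (Fin n) (Fin n) Ω)
    (hV : V.map (Int.castRingHom Ω) * A = S * V.map (Int.castRingHom Ω))
    (hQ : μ * Q.map (Int.castRingHom Ω) =
      Q.map (Int.castRingHom Ω) * Matrix.kroneckerMap (· * ·) S W) :
    μ * (inQ V Q).map (Int.castRingHom Ω) =
      (inQ V Q).map (Int.castRingHom Ω) * Matrix.kroneckerMap (· * ·) A W := by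
  have h1 : (inQ V Q).map (Int.castRingHom Ω) = Q.map (Int.castRingHom Ω) *
      Matrix.kroneckerMap (· * ·) (V.map (Int.castRingHom Ω)) (1 : Matrix m m Ω) := by
    unfold inQ
    rw [Matrix.map_mul, kron_map, Matrix.map_one _ (map_zero _) (map_one _)]
  rw [h1, ← Matrix.mul_assoc, hQ, Matrix.mul_assoc, Matrix.mul_assoc,
    ← Matrix.mul_kronecker_mul, ← Matrix.mul_kronecker_mul, hV, Matrix.one_mul, Matrix.mul_one]

end

/-! ### Relations over the rational field -/

section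

variable {n k l : ℕ} [Fact l.Prime] {ι : Fin k → Type} [∀ a, Fintype (ι a)]
  [∀ a, DecidableEq (ι a)]

/-- the relation for the projections -/
theorem rel_Q {K : Type} [Field K] (P : ∀ a, Matrix (ι a) (Fin n) K)
    (Q : ∀ a, Matrix (Fin n) (ι a) K) (hPQ : ∀ a, P a * Q a = 1)
    (hPQ0 : ∀ a b, a ≠ b → P a * Q b = 0) (hQP : ∑ a, Q a * P a = 1)
    (μ : Matrix (Fin n) (Fin n) K) (S : ∀ a, Matrix (ι a) (ι a) K)
    (hP : ∀ a, P a * μ = S a * P a) (a : Fin k) : μ * Q a = Q a * S a := by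
  have h1 : μ * Q a = ∑ b, Q b * (P b * (μ * Q a)) := by
    have h2 : (∑ b, Q b * P b) * (μ * Q a) = μ * Q a := by rw [hQP, Matrix.one_mul]
    rw [Matrix.sum_mul] at h2
    conv_lhs => rw [← h2]
    exact Finset.sum_congr rfl fun b _ => Matrix.mul_assoc _ _ _
  rw [h1, Finset.sum_eq_single a]
  · rw [← Matrix.mul_assoc (P a), hP a, Matrix.mul_assoc (S a), hPQ a, Matrix.mul_one]
  · intro b _ hb
    rw [← Matrix.mul_assoc (P b), hP b, Matrix.mul_assoc (S b), hPQ0 b a hb, Matrix.mul_zero,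
      Matrix.mul_zero]
  · intro h
    exact absurd (Finset.mem_univ a) h

theorem pad_inj {α β : Type} : Function.Injective
    fun X : Matrix α β ℤ_[l] => X.map (algebraMap ℤ_[l] ℚ_[l]) :=
  Matrix.map_injective (IsFractionRing.injective ℤ_[l] ℚ_[l])

/-- integral matrices over `ℚ_l` -/
theorem den_map {α β : Type} (Z : Matrix α β ℤ) (D : ℕ) (X : Matrix α β ℚ)
    (h : Z.map (Int.castRingHom ℚ) = (D : ℚ) • X) :
    (Z.map (Int.castRingHom ℤ_[l])).map (algebraMap ℤ_[l] ℚ_[l]) =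
      (D : ℚ_[l]) • X.map (algebraMap ℚ ℚ_[l]) := by
  rw [map_zmod, ← map_zmod (algebraMap ℚ ℚ_[l]), h, smul_map, map_natCast]

/-- the relation over `ℤ_l` for the inclusion -/
theorem zl_P {α : Type} [Fintype α] [DecidableEq α] (Z : Matrix α (Fin n) ℤ) (D : ℕ)
    (X : Matrix α (Fin n) ℚ) (h : Z.map (Int.castRingHom ℚ) = (D : ℚ) • X)
    (μ : Matrix (Fin n) (Fin n) ℤ_[l]) (S : Matrix α α ℤ_[l])
    (hX : X.map (algebraMap ℚ ℚ_[l]) * μ.map (algebraMap ℤ_[l] ℚ_[l]) =
      S.map (algebraMap ℤ_[l] ℚ_[l]) * X.map (algebraMap ℚ ℚ_[l])) :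
    Z.map (Int.castRingHom ℤ_[l]) * μ = S * Z.map (Int.castRingHom ℤ_[l]) := by
  apply pad_inj
  beta_reduce
  rw [Matrix.map_mul, Matrix.map_mul, den_map Z D X h, Matrix.smul_mul, Matrix.mul_smul, hX]

/-- the relation over `ℤ_l` for the projection -/
theorem zl_Q {α : Type} [Fintype α] [DecidableEq α] (Z : Matrix (Fin n) α ℤ) (D : ℕ)
    (X : Matrix (Fin n) α ℚ) (h : Z.map (Int.castRingHom ℚ) = (D : ℚ) • X)
    (μ : Matrix (Fin n) (Fin n) ℤ_[l]) (S : Matrix α α ℤ_[l])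
    (hX : μ.map (algebraMap ℤ_[l] ℚ_[l]) * X.map (algebraMap ℚ ℚ_[l]) =
      X.map (algebraMap ℚ ℚ_[l]) * S.map (algebraMap ℤ_[l] ℚ_[l])) :
    μ * Z.map (Int.castRingHom ℤ_[l]) = Z.map (Int.castRingHom ℤ_[l]) * S := by
  apply pad_inj
  beta_reduce
  rw [Matrix.map_mul, Matrix.map_mul, den_map Z D X h, Matrix.smul_mul, Matrix.mul_smul, hX]

end

end Pool.Agent.Helper3.REC
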